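import Pool.Agent.X214.OM.Cx

/-!
# Lower bounds for functions of one matrix
-/

set_option autoImplicit false
set_option linter.unusedSectionVars false

namespace Pool.Agent.X214.OM

open Topology Filter Module Pool.Agent.H515R2.MMR Pool.Agent.H53R3 Pool.Agent.Y538.Net
open Pool.Agent.X214.LG (linInd_map H2_symm H2_eval)

variable {𝕜 : Type} [RCLike 𝕜] {n m a b L : ℕ}

section line

variable {E : Type} [NormedAddCommGroup E] [NormedSpace 𝕜 E]

lemma deriv_line {G : E → 𝕜} {x : E} {t : 𝕜} (h : DifferentiableAt 𝕜 G (t • x)) :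
    HasDerivAt (fun s : 𝕜 => G (s • x)) (fderiv 𝕜 G (t • x) x) t := by
  have h1 : HasDerivAt (fun s : 𝕜 => s • x) x t := by
    have := (hasDerivAt_id t).smul_const x
    simpa using this
  exact h.hasFDerivAt.comp_hasDerivAt t h1

lemma tendsto_line (x : E) : Tendsto (fun s : 𝕜 => s • x) (𝓝 0) (𝓝 0) := by
  have h : Continuous fun s : 𝕜 => s • x := continuous_id.smul continuous_const
  have := h.tendsto 0
  simpa using this

lemma iter2_ev {G : E → 𝕜} {x : E} (hG : ContDiffAt 𝕜 2 G 0) :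
    ∀ᶠ t : 𝕜 in 𝓝 0, iteratedDeriv 2 (fun t : 𝕜 => G (t • x)) t = H2 G (t • x) x x := by
  have h2 : ∀ᶠ y in 𝓝 (0 : E), ContDiffAt 𝕜 2 G y := hG.eventually (by simp)
  have h1 : ∀ᶠ t : 𝕜 in 𝓝 0, ContDiffAt 𝕜 2 G (t • x) := (tendsto_line x).eventually h2
  have h3 := h1.eventually_nhds
  filter_upwards [h3] with t ht
  rw [iteratedDeriv_succ, iteratedDeriv_one]
  have e1 : deriv (fun t : 𝕜 => G (t • x)) =ᶠ[𝓝 t] fun s => fderiv 𝕜 G (s • x) x := by
    filter_upwards [ht] with s hs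
    exact (deriv_line (diff1 hs)).deriv
  rw [e1.deriv_eq]
  have h4 : ContDiffAt 𝕜 2 G (t • x) := ht.self_of_nhds
  have h5 : DifferentiableAt 𝕜 (fun y => fderiv 𝕜 G y x) (t • x) :=
    (diff2 h4).clm_apply (differentiableAt_const _)
  rw [(deriv_line (G := fun y => fderiv 𝕜 G y x) h5).deriv, H2_eval h4]

lemma iter2 {G : E → 𝕜} (x : E) (hG : ContDiffAt 𝕜 2 G 0) :
    iteratedDeriv 2 (fun t : 𝕜 => G (t • x)) 0 = H2 G 0 x x := by
  have := (iter2_ev (x := x) hG).self_of_nhds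
  rwa [zero_smul] at this

lemma iter3 {G : E → 𝕜} (x : E) (hG : ContDiffAt 𝕜 3 G 0) :
    iteratedDeriv 3 (fun t : 𝕜 => G (t • x)) 0 = D3 G 0 x x x := by
  rw [iteratedDeriv_succ]
  have e1 : iteratedDeriv 2 (fun t : 𝕜 => G (t • x)) =ᶠ[𝓝 0] fun t => H2 G (t • x) x x :=
    iter2_ev (le23 hG)
  rw [e1.deriv_eq]
  have hG' : DifferentiableAt 𝕜 (fun y => H2 G y x x) ((0 : 𝕜) • x) := by
    rw [zero_smul]; exact diff3' hG x x
  rw [(deriv_line (G := fun y => H2 G y x x) hG').deriv, zero_smul]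
  rfl

end line

/-- **Second order.** -/
theorem lower2 (σ : 𝕜 →+* ℂ) {M : (Fin m → 𝕜) →ₗ[𝕜] Matrix (Fin n) (Fin n) 𝕜}
    (hM : Function.Injective M) {P Q : Matrix (Fin n) (Fin n) 𝕜} (hP : IsUnit P) (hQ : IsUnit Q)
    {F : Fin n × Fin n → (Fin m → 𝕜) → 𝕜} (hF : Computes 2 a b L F)
    (h2 : ∀ x i j, iteratedDeriv 2 (fun t : 𝕜 => F (i, j) (t • x)) 0 = (P * (M x * M x) * Q) i j)
    {q : ℕ} (hq : 1 ≤ q) (hd : n ^ 2 + (16 * q + 4) * n < 4 * m) :
    (q : ℝ) ^ omega ≤ (L * (a * min a b) : ℕ) := by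
  classical
  obtain ⟨D, g, hnet, h0, hFG⟩ := hF
  choose G hG hFG using hFG
  obtain ⟨U, β, hU⟩ := net_second hnet h0
  choose C hC using fun j => hU (G j) (hG j)
  have hcd : ∀ j, ContDiffAt 𝕜 2 (G j) 0 := fun j =>
    avail_contDiff (r := 2) (net_contDiff hnet h0) _ (hG j)
  have hdiag : ∀ x i j, H2 (G (i, j)) 0 x x = (P * (M x * M x) * Q) i j := by
    intro x i j
    rw [← h2, ← iter2 x (hcd (i, j))]
    have e : (fun t : 𝕜 => F (i, j) (t • x)) =ᶠ[𝓝 0] fun t => G (i, j) (t • x) :=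
      (tendsto_line x).eventually (hFG (i, j))
    exact (e.iteratedDeriv_eq 2).symm
  have hpol : ∀ x y i j, 2 * H2 (G (i, j)) 0 x y = (P * (M x * M y + M y * M x) * Q) i j := by
    intro x y i j
    have h1 := hdiag (x + y) i j
    have h3 := hdiag x i j
    have h4 := hdiag y i j
    have h5 := H2_symm (hcd (i, j)) y x
    simp only [map_add, _root_.add_apply] at h1
    rw [h5, h3, h4] at h1
    have h6 : P * ((M x + M y) * (M x + M y)) * Q = P * (M x * M x) * Q +
        P * (M x * M y + M y * M x) * Q + P * (M y * M y) * Q := by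
      noncomm_ring
    rw [h6, Matrix.add_apply, Matrix.add_apply] at h1
    linear_combination h1
  obtain ⟨Pi, hP1, hP2⟩ : ∃ Pi : Matrix (Fin n) (Fin n) 𝕜, P * Pi = 1 ∧ Pi * P = 1 := by
    obtain ⟨u, rfl⟩ := hP
    exact ⟨((u⁻¹ : (Matrix (Fin n) (Fin n) 𝕜)ˣ) : Matrix (Fin n) (Fin n) 𝕜), by simp, by simp⟩
  obtain ⟨Qi, hQ1, hQ2⟩ : ∃ Qi : Matrix (Fin n) (Fin n) 𝕜, Q * Qi = 1 ∧ Qi * Q = 1 := by
    obtain ⟨u, rfl⟩ := hQ
    exact ⟨((u⁻¹ : (Matrix (Fin n) (Fin n) 𝕜)ˣ) : Matrix (Fin n) (Fin n) 𝕜), by simp, by simp⟩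
  -- the matrices of the gates
  let W : ℕ → Fin b → Matrix (Fin n) (Fin n) 𝕜 := fun s o =>
    (2 : 𝕜) • (Pi * Matrix.of (fun i j => C (i, j) s o) * Qi)
  have hprod : ∀ x y, M x * M y + M y * M x = ∑ s ∈ Finset.range L, ∑ o,
      (∑ i, ∑ j, β s o i j * (U s j x * U s i y)) • W s o := by
    intro x y
    have h1 : P * (M x * M y + M y * M x) * Q = ∑ s ∈ Finset.range L, ∑ o,
        (∑ i, ∑ j, β s o i j * (U s j x * U s i y)) • ((2 : 𝕜) •
          Matrix.of (fun i j => C (i, j) s o)) := by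
      refine Matrix.ext fun i j => ?_
      rw [← hpol, hC]
      simp only [Matrix.sum_apply, Matrix.smul_apply, Matrix.of_apply, smul_eq_mul,
        Finset.mul_sum]
      refine Finset.sum_congr rfl fun s _ => Finset.sum_congr rfl fun o _ => ?_
      simp only [Finset.sum_mul]
      refine Finset.sum_congr rfl fun i' _ => Finset.sum_congr rfl fun j' _ => ?_
      ring
    have h3 : M x * M y + M y * M x = Pi * (P * (M x * M y + M y * M x) * Q) * Qi := by
      rw [← mul_assoc, ← mul_assoc, hP2, one_mul, mul_assoc, hQ1, mul_one]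
    rw [h3, h1]
    simp only [Finset.mul_sum, Finset.sum_mul, Matrix.mul_smul, Matrix.smul_mul, W]
  -- coordinates
  obtain ⟨Ψ, hΨ⟩ := LinearMap.exists_leftInverse_of_injective M (LinearMap.ker_eq_bot.mpr hM)
  have hΨx : ∀ x, Ψ (M x) = x := fun x => by
    have := congrArg (fun f => f x) hΨ
    simpa using this
  let V : Submodule 𝕜 (Matrix (Fin n) (Fin n) 𝕜) := LinearMap.range M
  have hV : finrank 𝕜 V = m := by
    rw [LinearMap.finrank_range_of_inj hM, Module.finrank_fin_fun]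
  let trm : Matrix (Fin n) (Fin n) 𝕜 → (Matrix (Fin n) (Fin n) 𝕜 →ₗ[𝕜] 𝕜) := fun W =>
    (Matrix.traceLinearMap (Fin n) 𝕜 𝕜).comp (LinearMap.mulLeft 𝕜 W)
  have htrm : ∀ W D, trm W D = (W * D).trace := fun _ _ => rfl
  have hmain : ∀ x y D, (M x * M y * D).trace + (M y * M x * D).trace =
      ∑ s ∈ Finset.range L, ∑ o, (∑ i, ∑ j, β s o i j * (U s j x * U s i y)) *
        (W s o * D).trace := by
    intro x y D
    rw [← Matrix.trace_add, ← add_mul, hprod, Finset.sum_mul, Matrix.trace_sum]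
    refine Finset.sum_congr rfl fun s _ => ?_
    rw [Finset.sum_mul, Matrix.trace_sum]
    refine Finset.sum_congr rfl fun o _ => ?_
    rw [Matrix.smul_mul, Matrix.trace_smul, smul_eq_mul]
  have hdV : n ^ 2 + (16 * q + 4) * n < 4 * finrank ℂ (cx σ V) := by
    have := finrank_cx σ V
    omega
  rcases le_total a b with hab | hab
  · have hT : TriK V V ⊤ (Fin L × Fin a × Fin a) := by
      refine ⟨fun t => (U t.1 t.2.2).comp Ψ, fun t => (U t.1 t.2.1).comp Ψ,
        fun t => ∑ o, β t.1 o t.2.1 t.2.2 • trm (W t.1 o), ?_⟩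
      rintro _ ⟨x, rfl⟩ _ ⟨y, rfl⟩ D -
      rw [hmain, Finset.sum_range, Fintype.sum_prod_type]
      refine Finset.sum_congr rfl fun s _ => ?_
      rw [Fintype.sum_prod_type]
      simp only [Finset.sum_mul, LinearMap.comp_apply, hΨx, LinearMap.sum_apply,
        LinearMap.smul_apply, smul_eq_mul, Finset.mul_sum, htrm]
      rw [Finset.sum_comm]
      refine Finset.sum_congr rfl fun i _ => ?_
      rw [Finset.sum_comm]
      refine Finset.sum_congr rfl fun j _ => Finset.sum_congr rfl fun o _ => ?_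
      ring
    have h1 := hT.bRank σ
    rw [cx_top] at h1
    refine (two_bound hq 1 1 (Or.inl one_ne_zero) _ hdV h1).trans (le_of_eq ?_)
    rw [min_eq_left hab]
    simp only [Fintype.card_prod, Fintype.card_fin]
  · have hT : TriK V V ⊤ (Fin L × Fin b × Fin a) := by
      refine ⟨fun t => ∑ j, β t.1 t.2.1 t.2.2 j • (U t.1 j).comp Ψ,
        fun t => (U t.1 t.2.2).comp Ψ, fun t => trm (W t.1 t.2.1), ?_⟩
      rintro _ ⟨x, rfl⟩ _ ⟨y, rfl⟩ D -
      rw [hmain, Finset.sum_range, Fintype.sum_prod_type]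
      refine Finset.sum_congr rfl fun s _ => ?_
      rw [Fintype.sum_prod_type]
      refine Finset.sum_congr rfl fun o _ => ?_
      rw [Finset.sum_mul]
      refine Finset.sum_congr rfl fun i _ => ?_
      simp only [Finset.sum_mul, LinearMap.comp_apply, hΨx, LinearMap.sum_apply,
        LinearMap.smul_apply, smul_eq_mul, Finset.mul_sum, htrm]
      refine Finset.sum_congr rfl fun j _ => ?_
      ring
    have h1 := hT.bRank σ
    rw [cx_top] at h1
    refine (two_bound hq 1 1 (Or.inl one_ne_zero) _ hdV h1).trans (le_of_eq ?_)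
    rw [min_eq_right hab]
    simp only [Fintype.card_prod, Fintype.card_fin]
    push_cast
    ring

/-- Polarisation of `tr (A ^ 3)`. -/
lemma polarK (A B D : Matrix (Fin n) (Fin n) 𝕜) :
    ((A + B + D) * (A + B + D) * (A + B + D)).trace - ((A + B) * (A + B) * (A + B)).trace -
      ((A + D) * (A + D) * (A + D)).trace - ((B + D) * (B + D) * (B + D)).trace +
      (A * A * A).trace + (B * B * B).trace + (D * D * D).trace =
      3 * ((A * B * D).trace + (B * A * D).trace) := by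
  have h1 : (B * D * A).trace = (A * B * D).trace := Matrix.trace_mul_cycle B D A
  have h2 : (D * A * B).trace = (A * B * D).trace := (Matrix.trace_mul_cycle A B D).symm
  have h3 : (A * D * B).trace = (B * A * D).trace := Matrix.trace_mul_cycle A D B
  have h4 : (D * B * A).trace = (B * A * D).trace := (Matrix.trace_mul_cycle B A D).symm
  simp only [mul_add, add_mul, Matrix.trace_add, h1, h2, h3, h4]
  ring

/-- Polarisation of a trilinear form. -/
lemma polarT {E : Type} [AddCommGroup E] {T : E → E → E → 𝕜}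
    (a1 : ∀ x x' y z, T (x + x') y z = T x y z + T x' y z)
    (a2 : ∀ x y y' z, T x (y + y') z = T x y z + T x y' z)
    (a3 : ∀ x y z z', T x y (z + z') = T x y z + T x y z')
    (s12 : ∀ x y z, T x y z = T y x z) (s13 : ∀ x y z, T x y z = T z y x) (x y z : E) :
    T (x + y + z) (x + y + z) (x + y + z) - T (x + y) (x + y) (x + y) -
      T (x + z) (x + z) (x + z) - T (y + z) (y + z) (y + z) + T x x x + T y y y + T z z z =
      6 * T x y z := by
  have e1 : T y x z = T x y z := s12 y x z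
  have e2 : T z y x = T x y z := s13 z y x
  have e3 : T y z x = T x y z := by rw [s12 y z x, e2]
  have e4 : T z x y = T x y z := by rw [s13 z x y, e1]
  have e5 : T x z y = T x y z := by rw [s12 x z y, e4]
  simp only [a1, a2, a3, e1, e2, e3, e4, e5]
  ring

/-- **Third order.** -/
theorem lower3 (σ : 𝕜 →+* ℂ) {M : (Fin m → 𝕜) →ₗ[𝕜] Matrix (Fin n) (Fin n) 𝕜}
    (hM : Function.Injective M) {γ : 𝕜} (hγ : γ ≠ 0) {f : (Fin m → 𝕜) → 𝕜}
    (hF : Computes 3 a b L (fun _ : Unit => f))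
    (h3 : ∀ x, (M x).trace = 0 →
      iteratedDeriv 3 (fun t : 𝕜 => f (t • x)) 0 = γ * (M x * M x * M x).trace)
    {q : ℕ} (hq : 1 ≤ q) (hd : n ^ 2 + (3 * q + 2) * n + 2 < 2 * m) :
    (q : ℝ) ^ omega ≤ (3 * (L * (a * a)) : ℕ) := by
  classical
  obtain ⟨D, g, hnet, h0, hFG⟩ := hF
  obtain ⟨G, hG, hfG⟩ := hFG ()
  obtain ⟨U, hU⟩ := net_third hnet h0
  obtain ⟨μ₁, μ₂, μ₃, hR⟩ := hU G hG
  have hcd : ContDiffAt 𝕜 3 G 0 := avail_contDiff (r := 3) (net_contDiff hnet h0) _ hG
  have hdiag : ∀ x, (M x).trace = 0 → D3 G 0 x x x = γ * (M x * M x * M x).trace := by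
    intro x hx
    rw [← h3 x hx, ← iter3 x hcd]
    have e : (fun t : 𝕜 => f (t • x)) =ᶠ[𝓝 0] fun t => G (t • x) :=
      (tendsto_line x).eventually hfG
    exact (e.iteratedDeriv_eq 3).symm
  -- trilinearity
  have a1 : ∀ x x' y z, D3 G 0 (x + x') y z = D3 G 0 x y z + D3 G 0 x' y z := by
    intro x x' y z
    have e1 := hR (x + x') y z
    have e2 := hR x y z
    have e3 := hR x' y z
    beta_reduce at e1 e2 e3
    rw [e1, e2, e3]
    simp only [map_add, ← Finset.sum_add_distrib]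
    refine Finset.sum_congr rfl fun s _ => Finset.sum_congr rfl fun i _ =>
      Finset.sum_congr rfl fun j _ => ?_
    ring
  have a2 : ∀ x y y' z, D3 G 0 x (y + y') z = D3 G 0 x y z + D3 G 0 x y' z := by
    intro x y y' z
    rw [D3_symm12 hcd, a1, D3_symm12 hcd y, D3_symm12 hcd y']
  have a3 : ∀ x y z z', D3 G 0 x y (z + z') = D3 G 0 x y z + D3 G 0 x y z' := by
    intro x y z z'
    rw [D3_symm13 hcd, a1, D3_symm13 hcd z, D3_symm13 hcd z']
  have hpol : ∀ x y z, (M x).trace = 0 → (M y).trace = 0 → (M z).trace = 0 →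
      (M x * M y * M z).trace + (M y * M x * M z).trace = 2 / γ * D3 G 0 x y z := by
    intro x y z hx hy hz
    have e1 := polarT a1 a2 a3 (D3_symm12 hcd) (D3_symm13 hcd) x y z
    have e2 := polarK (M x) (M y) (M z)
    have hxy : (M (x + y)).trace = 0 := by rw [map_add, Matrix.trace_add, hx, hy, add_zero]
    have hxz : (M (x + z)).trace = 0 := by rw [map_add, Matrix.trace_add, hx, hz, add_zero]
    have hyz : (M (y + z)).trace = 0 := by rw [map_add, Matrix.trace_add, hy, hz, add_zero]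
    have hxyz : (M (x + y + z)).trace = 0 := by
      rw [map_add, Matrix.trace_add, hxy, hz, add_zero]
    rw [hdiag _ hxyz, hdiag _ hxy, hdiag _ hxz, hdiag _ hyz, hdiag _ hx, hdiag _ hy,
      hdiag _ hz] at e1
    simp only [map_add] at e1
    have h6 : 6 * D3 G 0 x y z = γ * (3 * ((M x * M y * M z).trace + (M y * M x * M z).trace)) := by
      rw [← e2, ← e1]
      ring
    have h7 : γ * (3 * ((M x * M y * M z).trace + (M y * M x * M z).trace)) =
        γ * (3 * (2 / γ * D3 G 0 x y z)) := by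
      rw [← h6]
      field_simp
      ring
    have h8 := mul_left_cancel₀ hγ h7
    exact mul_left_cancel₀ (by norm_num) h8
  -- coordinates
  obtain ⟨Ψ, hΨ⟩ := LinearMap.exists_leftInverse_of_injective M (LinearMap.ker_eq_bot.mpr hM)
  have hΨx : ∀ x, Ψ (M x) = x := fun x => by
    have := congrArg (fun f => f x) hΨ
    simpa using this
  let tr : (Fin m → 𝕜) →ₗ[𝕜] 𝕜 := (Matrix.traceLinearMap (Fin n) 𝕜 𝕜).comp M
  have htr : ∀ x, tr x = (M x).trace := fun _ => rfl
  let K := LinearMap.ker tr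
  have hK : m ≤ finrank 𝕜 K + 1 := by
    have h1 := tr.finrank_range_add_finrank_ker
    have h2 : finrank 𝕜 (LinearMap.range tr) ≤ 1 := by
      have := Submodule.finrank_le (LinearMap.range tr)
      simpa using this
    rw [Module.finrank_fin_fun] at h1
    have h3 : finrank 𝕜 K = finrank 𝕜 (LinearMap.ker tr) := rfl
    omega
  let V : Submodule 𝕜 (Matrix (Fin n) (Fin n) 𝕜) := K.map M
  have hV : finrank 𝕜 V = finrank 𝕜 K :=
    (LinearEquiv.finrank_eq (Submodule.equivMapOfInjective M hM K)).symm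
  have hT : TriK V V V ((Fin L × Fin a × Fin a) ⊕ (Fin L × Fin a × Fin a) ⊕
      (Fin L × Fin a × Fin a)) := by
    refine ⟨Sum.elim (fun t => (2 / γ) • (U t.1 t.2.2).comp Ψ)
        (Sum.elim (fun t => (2 / γ) • (U t.1 t.2.2).comp Ψ)
        (fun t => (2 / γ) • (μ₃ t.1 t.2.1 t.2.2).comp Ψ)),
      Sum.elim (fun t => (U t.1 t.2.1).comp Ψ) (Sum.elim (fun t => (μ₂ t.1 t.2.1 t.2.2).comp Ψ)
        (fun t => (U t.1 t.2.2).comp Ψ)),
      Sum.elim (fun t => (μ₁ t.1 t.2.1 t.2.2).comp Ψ) (Sum.elim (fun t => (U t.1 t.2.1).comp Ψ)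
        (fun t => (U t.1 t.2.1).comp Ψ)), ?_⟩
    rintro _ ⟨x, hx, rfl⟩ _ ⟨y, hy, rfl⟩ _ ⟨z, hz, rfl⟩
    rw [hpol x y z hx hy hz]
    have e1 := hR x y z
    beta_reduce at e1
    rw [e1, Fintype.sum_sum_type, Fintype.sum_sum_type, Finset.sum_range]
    simp only [Sum.elim_inl, Sum.elim_inr]
    rw [← Finset.sum_add_distrib, ← Finset.sum_add_distrib, Fintype.sum_prod_type,
      Finset.mul_sum]
    refine Finset.sum_congr rfl fun s _ => ?_
    rw [Fintype.sum_prod_type, Finset.mul_sum]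
    refine Finset.sum_congr rfl fun i _ => ?_
    rw [Finset.mul_sum]
    refine Finset.sum_congr rfl fun j _ => ?_
    simp only [LinearMap.comp_apply, hΨx, LinearMap.smul_apply, smul_eq_mul]
    ring
  have h1 := hT.bRank σ
  have hdV : n ^ 2 + (3 * q + 2) * n < 2 * finrank ℂ (cx σ V) := by
    have := finrank_cx σ V
    omega
  refine (sym_bound hq _ hdV h1).trans (le_of_eq ?_)
  simp only [Fintype.card_prod, Fintype.card_fin, Fintype.card_sum]
  push_cast
  ring

end Pool.Agent.X214.OM
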