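import Pool.Agent.X214.OM.Net
import Pool.Agent.X214.LG.Lower

/-!
# Base change and the lower bounds
-/

set_option autoImplicit false
set_option linter.unusedSectionVars false

namespace Pool.Agent.X214.OM

open Topology Filter Module Pool.Agent.H515R2.MMR Pool.Agent.H53R3 Pool.Agent.Y538.Net
open Pool.Agent.X214.LG (linInd_map H2_symm)

variable {𝕜 : Type} [RCLike 𝕜] {n : ℕ}

/-- Trilinear algorithm for `tr (A B D) + tr (B A D)`. -/
def TriK (V₁ V₂ V₃ : Submodule 𝕜 (Matrix (Fin n) (Fin n) 𝕜)) (ι : Type) [Fintype ι] : Prop :=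
  ∃ f g h : ι → (Matrix (Fin n) (Fin n) 𝕜 →ₗ[𝕜] 𝕜), ∀ A ∈ V₁, ∀ B ∈ V₂, ∀ D ∈ V₃,
    (A * B * D).trace + (B * A * D).trace = ∑ t, f t A * g t B * h t D

/-- The complex span. -/
def cx (σ : 𝕜 →+* ℂ) (V : Submodule 𝕜 (Matrix (Fin n) (Fin n) 𝕜)) : Submodule ℂ (Mt n) :=
  Submodule.span ℂ ((fun A : Matrix (Fin n) (Fin n) 𝕜 => A.map σ) '' V)

lemma finrank_cx (σ : 𝕜 →+* ℂ) (V : Submodule 𝕜 (Matrix (Fin n) (Fin n) 𝕜)) :
    finrank 𝕜 V ≤ finrank ℂ (cx σ V) := by
  classical
  let e := Module.finBasis 𝕜 V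
  let v : Fin (finrank 𝕜 V) → Matrix (Fin n) (Fin n) 𝕜 := fun k => (e k : Matrix _ _ 𝕜)
  have hv : LinearIndependent 𝕜 v := by
    have := e.linearIndependent.map' V.subtype (Submodule.ker_subtype V)
    exact this
  let v' : Fin (finrank 𝕜 V) → Mt n := fun k => (v k).map σ
  have hv' : LinearIndependent ℂ v' := by
    have h1 : LinearIndependent 𝕜 (fun k => (fun ij : Fin n × Fin n => v k ij.1 ij.2)) := by
      let E : Matrix (Fin n) (Fin n) 𝕜 →ₗ[𝕜] (Fin n × Fin n → 𝕜) :=
        { toFun := fun M ij => M ij.1 ij.2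
          map_add' := fun _ _ => rfl
          map_smul' := fun _ _ => rfl }
      have hE : LinearMap.ker E = ⊥ := by
        rw [LinearMap.ker_eq_bot']
        intro M hM
        refine Matrix.ext fun i j => ?_
        exact congrFun hM (i, j)
      exact hv.map' E hE
    have h2 := linInd_map σ _ h1
    rw [Fintype.linearIndependent_iff] at h2 ⊢
    intro c hc k
    refine h2 c ?_ k
    funext ij
    have := congrFun (congrFun hc ij.1) ij.2
    simp only [Matrix.sum_apply, Matrix.smul_apply, v', Matrix.map_apply] at this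
    simp only [Finset.sum_apply, Pi.smul_apply]
    exact this
  have hle : Submodule.span ℂ (Set.range v') ≤ cx σ V := by
    rw [Submodule.span_le]
    rintro _ ⟨k, rfl⟩
    exact Submodule.subset_span ⟨v k, (e k).2, rfl⟩
  have h1 := Submodule.finrank_mono hle
  rw [finrank_span_eq_card hv', Fintype.card_fin] at h1
  exact h1

lemma cx_top (σ : 𝕜 →+* ℂ) : cx σ (⊤ : Submodule 𝕜 (Matrix (Fin n) (Fin n) 𝕜)) = ⊤ := by
  classical
  rw [eq_top_iff]
  intro A _
  rw [Matrix.matrix_eq_sum_single A]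
  refine Submodule.sum_mem _ fun i _ => Submodule.sum_mem _ fun j _ => ?_
  have : Matrix.single i j (A i j) = A i j • (Matrix.single i j (1 : 𝕜)).map σ := by
    refine Matrix.ext fun i' j' => ?_
    simp only [Matrix.smul_apply, Matrix.map_apply, Matrix.single_apply, smul_eq_mul]
    split_ifs <;> simp
  rw [this]
  exact Submodule.smul_mem _ _ (Submodule.subset_span ⟨_, trivial, rfl⟩)

lemma span_zero {W : Type} [AddCommGroup W] [Module ℂ W] {S : Set W} {T : W → ℂ}
    (hadd : ∀ x y, T (x + y) = T x + T y) (hsmul : ∀ (c : ℂ) x, T (c • x) = c * T x)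
    (h : ∀ x ∈ S, T x = 0) : ∀ x ∈ Submodule.span ℂ S, T x = 0 := by
  intro x hx
  induction hx using Submodule.span_induction with
  | mem x hx => exact h x hx
  | zero =>
    have := hsmul 0 0
    simpa using this
  | add x y _ _ hx hy => rw [hadd, hx, hy, add_zero]
  | smul c x _ hx => rw [hsmul, hx, mul_zero]

/-- Base change. -/
theorem TriK.bRank (σ : 𝕜 →+* ℂ) {V₁ V₂ V₃ : Submodule 𝕜 (Matrix (Fin n) (Fin n) 𝕜)} {ι : Type}
    [Fintype ι] (H : TriK V₁ V₂ V₃ ι) :
    BRank 1 1 (cx σ V₁) (cx σ V₂) (cx σ V₃) (Fintype.card ι) := by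
  classical
  obtain ⟨f, g, h, H⟩ := H
  let ext' : (Matrix (Fin n) (Fin n) 𝕜 →ₗ[𝕜] 𝕜) → (Mt n →ₗ[ℂ] ℂ) := fun φ =>
    { toFun := fun A => ∑ i, ∑ j, A i j * σ (φ (Matrix.single i j 1))
      map_add' := fun A B => by
        simp only [Matrix.add_apply, add_mul, Finset.sum_add_distrib]
      map_smul' := fun c A => by
        simp only [Matrix.smul_apply, smul_eq_mul, Finset.mul_sum, mul_assoc, RingHom.id_apply] }
  have hext : ∀ (φ : Matrix (Fin n) (Fin n) 𝕜 →ₗ[𝕜] 𝕜) (A : Matrix (Fin n) (Fin n) 𝕜),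
      ext' φ (A.map σ) = σ (φ A) := by
    intro φ A
    have h1 : φ A = ∑ i, ∑ j, A i j * φ (Matrix.single i j 1) := by
      conv_lhs => rw [Matrix.matrix_eq_sum_single A]
      simp only [map_sum]
      refine Finset.sum_congr rfl fun i _ => Finset.sum_congr rfl fun j _ => ?_
      have : Matrix.single i j (A i j) = A i j • Matrix.single i j (1 : 𝕜) := by
        rw [Matrix.smul_single, smul_eq_mul, mul_one]
      rw [this, map_smul, smul_eq_mul]
    rw [h1]
    simp only [map_sum, map_mul]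
    rfl
  have htr : ∀ A B D : Matrix (Fin n) (Fin n) 𝕜, (A.map σ * B.map σ * D.map σ).trace =
      σ (A * B * D).trace := by
    intro A B D
    rw [← Matrix.map_mul, ← Matrix.map_mul]
    simp only [Matrix.trace, Matrix.diag_apply, Matrix.map_apply, map_sum]
  let ee := Fintype.equivFin ι
  refine ⟨0, fun t => (Algebra.linearMap ℂ (Polynomial ℂ)).comp (ext' (f (ee.symm t))),
    fun t => (Algebra.linearMap ℂ (Polynomial ℂ)).comp (ext' (g (ee.symm t))),
    fun t => (Algebra.linearMap ℂ (Polynomial ℂ)).comp (ext' (h (ee.symm t))), ?_⟩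
  have key : ∀ A ∈ cx σ V₁, ∀ B ∈ cx σ V₂, ∀ D ∈ cx σ V₃,
      Phi 1 1 A B D - ∑ t, ext' (f t) A * ext' (g t) B * ext' (h t) D = 0 := by
    unfold Phi
    intro A hA B hB D hD
    refine span_zero (T := fun A => 1 * (A * B * D).trace + 1 * (B * A * D).trace -
      ∑ t, ext' (f t) A * ext' (g t) B * ext' (h t) D) ?_ ?_ ?_ A hA
    · intro x y
      simp only [add_mul, mul_add, Matrix.trace_add, map_add, Finset.sum_add_distrib]
      ring
    · intro c x
      simp only [Matrix.smul_mul, Matrix.mul_smul, Matrix.trace_smul, smul_eq_mul, map_smul,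
        mul_sub, mul_add, Finset.mul_sum]
      congr 1
      · ring
      · exact Finset.sum_congr rfl fun t _ => by ring
    rintro _ ⟨A', hA', rfl⟩
    refine span_zero (T := fun B => 1 * (A'.map σ * B * D).trace + 1 * (B * A'.map σ * D).trace -
      ∑ t, ext' (f t) (A'.map σ) * ext' (g t) B * ext' (h t) D) ?_ ?_ ?_ B hB
    · intro x y
      simp only [add_mul, mul_add, Matrix.trace_add, map_add, Finset.sum_add_distrib]
      ring
    · intro c x
      simp only [Matrix.smul_mul, Matrix.mul_smul, Matrix.trace_smul, smul_eq_mul, map_smul,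
        mul_sub, mul_add, Finset.mul_sum]
      congr 1
      · ring
      · exact Finset.sum_congr rfl fun t _ => by ring
    rintro _ ⟨B', hB', rfl⟩
    refine span_zero (T := fun D => 1 * (A'.map σ * B'.map σ * D).trace +
      1 * (B'.map σ * A'.map σ * D).trace -
      ∑ t, ext' (f t) (A'.map σ) * ext' (g t) (B'.map σ) * ext' (h t) D) ?_ ?_ ?_ D hD
    · intro x y
      simp only [mul_add, Matrix.trace_add, map_add, Finset.sum_add_distrib]
      ring
    · intro c x
      simp only [Matrix.mul_smul, Matrix.trace_smul, smul_eq_mul, map_smul,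
        mul_sub, mul_add, Finset.mul_sum]
      congr 1
      · ring
      · exact Finset.sum_congr rfl fun t _ => by ring
    rintro _ ⟨D', hD', rfl⟩
    beta_reduce
    rw [htr, htr, one_mul, one_mul, ← map_add, H A' hA' B' hB' D' hD']
    simp only [hext, map_sum, map_mul, sub_self]
  intro A hA B hB D hD
  refine ⟨0, ?_⟩
  have h1 := sub_eq_zero.mp (key A hA B hB D hD)
  rw [h1, pow_zero, one_mul, mul_zero, add_zero]
  simp only [LinearMap.comp_apply, Algebra.linearMap_apply, Polynomial.algebraMap_eq]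
  rw [map_sum]
  simp only [Polynomial.C_mul]
  exact Equiv.sum_comp ee.symm (fun t => Polynomial.C (ext' (f t) A) * Polynomial.C (ext' (g t) B) *
    Polynomial.C (ext' (h t) D))

end Pool.Agent.X214.OM
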