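import Mathlib

/-!
# Networks of smooth gates: definitions
-/

set_option autoImplicit false

namespace Pool.Agent.X214.OM

open Topology

variable {𝕜 : Type} [RCLike 𝕜]

/-- Linear combinations of `1`, of the `m` input numbers and of the outputs of the first `l`
gates. -/
def Avail {m b : ℕ} (g : ℕ → Fin b → (Fin m → 𝕜) → 𝕜) (l : ℕ) : Submodule 𝕜 ((Fin m → 𝕜) → 𝕜) :=
  Submodule.span 𝕜 {f | (f = fun _ => 1) ∨ (∃ i, f = fun x => x i) ∨ ∃ s < l, ∃ o, f = g s o}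

/-- `g 0, …, g (L - 1)` are the outputs of the gates of a network with input in the open set `D`:
the `l`-th gate applies a map `φ : 𝕜 ^ a → 𝕜 ^ b` to `a` functions in `Avail g l`, and `φ` is `r`
times continuously differentiable at the values that occur. -/
def IsNet {m : ℕ} (r a b L : ℕ) (D : Set (Fin m → 𝕜)) (g : ℕ → Fin b → (Fin m → 𝕜) → 𝕜) : Prop :=
  IsOpen D ∧ ∀ l < L, ∃ (u : Fin a → (Fin m → 𝕜) → 𝕜) (φ : (Fin a → 𝕜) → Fin b → 𝕜),
    (∀ i, u i ∈ Avail g l) ∧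
      ∀ x ∈ D, ContDiffAt 𝕜 r φ (fun i => u i x) ∧ ∀ o, g l o x = φ (fun i => u i x) o

/-- A network with `L` gates (`r` times continuously differentiable, with `a` inputs and `b`
outputs) computes the functions `F j` near `0`. -/
def Computes {m : ℕ} {ι : Type} (r a b L : ℕ) (F : ι → (Fin m → 𝕜) → 𝕜) : Prop :=
  ∃ (D : Set (Fin m → 𝕜)) (g : ℕ → Fin b → (Fin m → 𝕜) → 𝕜), IsNet r a b L D g ∧ 0 ∈ D ∧
    ∀ j, ∃ G ∈ Avail g L, ∀ᶠ x in 𝓝 0, F j x = G x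

/-- Linear families of `n × n` matrices with `m` parameters. -/
def Fam (𝕜 : Type) [RCLike 𝕜] (n m : ℕ) : Type := (Fin m → 𝕜) →ₗ[𝕜] Matrix (Fin n) (Fin n) 𝕜

/-- A family as a linear map. -/
def Fam.lin {n m : ℕ} (M : Fam 𝕜 n m) : (Fin m → 𝕜) →ₗ[𝕜] Matrix (Fin n) (Fin n) 𝕜 := M

/-- The member with the parameters `x`. -/
def Fam.mat {n m : ℕ} (M : Fam 𝕜 n m) (x : Fin m → 𝕜) : Matrix (Fin n) (Fin n) 𝕜 := M.lin x

/-- The `k`-th derivative of `t ↦ f (t x)` at `0`. -/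
noncomputable def lineDer {m : ℕ} (k : ℕ) (f : (Fin m → 𝕜) → 𝕜) (x : Fin m → 𝕜) : 𝕜 :=
  iteratedDeriv k (fun t : 𝕜 => f (t • x)) 0

/-- The matrix `P A² Q`. -/
def sandwich {n : ℕ} (P A Q : Matrix (Fin n) (Fin n) 𝕜) : Matrix (Fin n) (Fin n) 𝕜 :=
  P * (A * A) * Q

/-- `tr (A³)`. -/
def cubeTrace {n : ℕ} (A : Matrix (Fin n) (Fin n) 𝕜) : 𝕜 := (A * A * A).trace

/-- The entries of the inverse of `A₀ + M x`. -/
noncomputable def invF {n m : ℕ} (A₀ : Matrix (Fin n) (Fin n) 𝕜) (M : Fam 𝕜 n m) :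
    Fin n × Fin n → (Fin m → 𝕜) → 𝕜 :=
  fun ij x => ((A₀ + M.mat x)⁻¹) ij.1 ij.2

/-- The determinant of `A₀ + M x`. -/
noncomputable def detF {n m : ℕ} (A₀ : Matrix (Fin n) (Fin n) 𝕜) (M : Fam 𝕜 n m) :
    Unit → (Fin m → 𝕜) → 𝕜 :=
  fun _ x => (A₀ + M.mat x).det

/-- The value at `c` of the `k`-th derivative of the polynomial `p`. -/
noncomputable def derAt (k : ℕ) (p : Polynomial 𝕜) (c : 𝕜) : 𝕜 :=
  (Polynomial.derivative^[k] p).eval c

/-- The matrix `p (c + A)`. -/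
noncomputable def polyAt {n : ℕ} (p : Polynomial 𝕜) (c : 𝕜) (A : Matrix (Fin n) (Fin n) 𝕜) :
    Matrix (Fin n) (Fin n) 𝕜 :=
  Polynomial.aeval (c • 1 + A) p

/-- The entries of `p (c + M x)`. -/
noncomputable def polyF {n m : ℕ} (p : Polynomial 𝕜) (c : 𝕜) (M : Fam 𝕜 n m) :
    Fin n × Fin n → (Fin m → 𝕜) → 𝕜 :=
  fun ij x => polyAt p c (M.mat x) ij.1 ij.2

/-- The trace of `p (c + M x)`. -/
noncomputable def trF {n m : ℕ} (p : Polynomial 𝕜) (c : 𝕜) (M : Fam 𝕜 n m) :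
    Unit → (Fin m → 𝕜) → 𝕜 :=
  fun _ x => (polyAt p c (M.mat x)).trace

/-- The exponent of the least `L` with `T n L`, as a function of `n`. -/
noncomputable def gateExponent (T : ℕ → ℕ → Prop) : ℝ :=
  sInf {τ : ℝ | ∃ C : ℝ, ∀ n : ℕ, ∃ L : ℕ, T n L ∧ (L : ℝ) ≤ C * (n : ℝ) ^ τ}

/-- `L` gates compute, on an `m`-dimensional linear family `M` of `n × n` matrices, near `0`, some
matrix whose second order part is the square of `M x`, up to invertible factors. -/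
def SquareLike (𝕜 : Type) [RCLike 𝕜] (n m a b L : ℕ) : Prop :=
  ∃ (M : Fam 𝕜 n m) (P Q : Matrix (Fin n) (Fin n) 𝕜) (F : Fin n × Fin n → (Fin m → 𝕜) → 𝕜),
    Function.Injective M.mat ∧ IsUnit P ∧ IsUnit Q ∧ Computes 2 a b L F ∧
      ∀ x i j, lineDer 2 (F (i, j)) x = sandwich P (M.mat x) Q i j

/-- `L` gates compute, on an `m`-dimensional linear family `M` of `n × n` matrices, near `0`, some
function whose third order part is a nonzero multiple of `tr (M x) ^ 3` where `tr (M x) = 0`. -/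
def CubeLike (𝕜 : Type) [RCLike 𝕜] (n m a b L : ℕ) : Prop :=
  ∃ (M : Fam 𝕜 n m) (γ : 𝕜) (f : (Fin m → 𝕜) → 𝕜),
    Function.Injective M.mat ∧ γ ≠ 0 ∧ Computes 3 a b L (fun _ : Unit => f) ∧
      ∀ x, (M.mat x).trace = 0 → lineDer 3 f x = γ * cubeTrace (M.mat x)

end Pool.Agent.X214.OM
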