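import Pool.Agent.X214.OM.Bound

/-!
# The inverse and the determinant
-/

set_option autoImplicit false
set_option linter.unusedSectionVars false

namespace Pool.Agent.X214.OM

open Topology Filter

variable {𝕜 : Type} [RCLike 𝕜] {n m : ℕ}

section norms

attribute [local instance] Matrix.linftyOpNormedAddCommGroup Matrix.linftyOpNormedRing
  Matrix.linftyOpNormedAlgebra


noncomputable def NN (K : Matrix (Fin n) (Fin n) 𝕜) (t : 𝕜) : Matrix (Fin n) (Fin n) 𝕜 :=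
  Ring.inverse (1 + t • K)

lemma unit_ev (K : Matrix (Fin n) (Fin n) 𝕜) : ∀ᶠ t : 𝕜 in 𝓝 0, IsUnit (1 + t • K) := by
  have : CompleteSpace (Matrix (Fin n) (Fin n) 𝕜) := FiniteDimensional.complete 𝕜 _
  have h1 : IsOpen {A : Matrix (Fin n) (Fin n) 𝕜 | IsUnit A} := Units.isOpen
  have h2 : Continuous fun t : 𝕜 => (1 : Matrix (Fin n) (Fin n) 𝕜) + t • K :=
    continuous_const.add (continuous_id.smul continuous_const)
  have h3 := (h1.preimage h2).mem_nhds (x := 0) (by simp)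
  exact h3

lemma line_deriv (K : Matrix (Fin n) (Fin n) 𝕜) (t : 𝕜) :
    HasDerivAt (fun t : 𝕜 => (1 : Matrix (Fin n) (Fin n) 𝕜) + t • K) K t := by
  have h1 : HasDerivAt (fun t : 𝕜 => t • K) K t := by
    have := (hasDerivAt_id t).smul_const K
    rw [one_smul] at this
    exact this
  exact h1.const_add (1 : Matrix (Fin n) (Fin n) 𝕜)

lemma NN_deriv (K : Matrix (Fin n) (Fin n) 𝕜) {t : 𝕜} (h : IsUnit (1 + t • K)) :
    HasDerivAt (NN K) (-(NN K t * K * NN K t)) t := by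
  have : CompleteSpace (Matrix (Fin n) (Fin n) 𝕜) := FiniteDimensional.complete 𝕜 _
  obtain ⟨u, hu⟩ := h
  have h1 := hasFDerivAt_ringInverse (𝕜 := 𝕜) u
  rw [hu] at h1
  have h2 := h1.comp_hasDerivAt t (line_deriv K t)
  have e : NN K t = ((u⁻¹ : (Matrix (Fin n) (Fin n) 𝕜)ˣ) : Matrix (Fin n) (Fin n) 𝕜) := by
    unfold NN
    rw [← hu, Ring.inverse_unit]
  rw [e]
  have e2 : NN K = Ring.inverse ∘ fun t : 𝕜 => (1 : Matrix (Fin n) (Fin n) 𝕜) + t • K := rfl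
  rw [e2]
  have h4 : (-(ContinuousLinearMap.mulLeftRight 𝕜 (Matrix (Fin n) (Fin n) 𝕜))
      ((u⁻¹ : (Matrix (Fin n) (Fin n) 𝕜)ˣ) : Matrix (Fin n) (Fin n) 𝕜)
      ((u⁻¹ : (Matrix (Fin n) (Fin n) 𝕜)ˣ) : Matrix (Fin n) (Fin n) 𝕜)) K =
      -(((u⁻¹ : (Matrix (Fin n) (Fin n) 𝕜)ˣ) : Matrix (Fin n) (Fin n) 𝕜) * K *
        ((u⁻¹ : (Matrix (Fin n) (Fin n) 𝕜)ˣ) : Matrix (Fin n) (Fin n) 𝕜)) := rfl
  rw [h4] at h2
  exact h2

/-- linear functionals of matrix valued functions -/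
lemma fun_deriv (ℓ : Matrix (Fin n) (Fin n) 𝕜 →ₗ[𝕜] 𝕜) {A : 𝕜 → Matrix (Fin n) (Fin n) 𝕜}
    {A' : Matrix (Fin n) (Fin n) 𝕜} {t : 𝕜} (h : HasDerivAt A A' t) :
    HasDerivAt (fun t => ℓ (A t)) (ℓ A') t := by
  have h1 := (LinearMap.toContinuousLinearMap ℓ).hasFDerivAt (x := A t)
  exact h1.comp_hasDerivAt t h

/-- first, second and third derivative along `1 + t K` of `ℓ (N X)` -/
lemma NN_one (K X : Matrix (Fin n) (Fin n) 𝕜) (ℓ : Matrix (Fin n) (Fin n) 𝕜 →ₗ[𝕜] 𝕜) {t : 𝕜}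
    (h : IsUnit (1 + t • K)) :
    HasDerivAt (fun t => ℓ (NN K t * X)) (ℓ (-(NN K t * K * NN K t) * X)) t :=
  fun_deriv ℓ ((NN_deriv K h).mul_const X)

lemma NN_two (K X : Matrix (Fin n) (Fin n) 𝕜) (ℓ : Matrix (Fin n) (Fin n) 𝕜 →ₗ[𝕜] 𝕜) {t : 𝕜}
    (h : IsUnit (1 + t • K)) :
    HasDerivAt (fun t => ℓ (-(NN K t * K * NN K t) * X))
      (ℓ ((2 : 𝕜) • (NN K t * K * NN K t * K * NN K t) * X)) t := by
  have h1 := ((((NN_deriv K h).mul_const K).mul (NN_deriv K h)).neg).mul_const X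
  have h2 := fun_deriv ℓ h1
  have e : -(-(NN K t * K * NN K t) * K * NN K t + NN K t * K * -(NN K t * K * NN K t)) * X =
      (2 : 𝕜) • (NN K t * K * NN K t * K * NN K t) * X := by
    rw [two_smul]
    noncomm_ring
  rw [e] at h2
  exact h2

end norms

lemma NN_zero (K : Matrix (Fin n) (Fin n) 𝕜) : NN K 0 = 1 := by
  unfold NN
  rw [zero_smul, add_zero, Ring.inverse_one]

lemma NN_mul (K : Matrix (Fin n) (Fin n) 𝕜) {t : 𝕜} (h : IsUnit (1 + t • K)) :
    (1 + t • K) * NN K t = 1 := Ring.mul_inverse_cancel _ h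

/-- entries -/
def ent (i j : Fin n) : Matrix (Fin n) (Fin n) 𝕜 →ₗ[𝕜] 𝕜 where
  toFun A := A i j
  map_add' _ _ := rfl
  map_smul' _ _ := rfl

/-- Second derivative of the inverse. -/
lemma inv_second (K X : Matrix (Fin n) (Fin n) 𝕜) (i j : Fin n) :
    iteratedDeriv 2 (fun t : 𝕜 => (NN K t * X) i j) 0 = ((2 : 𝕜) • (K * K) * X) i j := by
  rw [iteratedDeriv_succ, iteratedDeriv_one]
  have e1 : deriv (fun t : 𝕜 => (NN K t * X) i j) =ᶠ[𝓝 0]
      fun t => ent i j (-(NN K t * K * NN K t) * X) := by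
    filter_upwards [unit_ev K] with t ht
    exact (NN_one K X (ent i j) ht).deriv
  rw [e1.deriv_eq, (NN_two K X (ent i j) (unit_ev K).self_of_nhds).deriv, NN_zero]
  simp only [one_mul, mul_one]
  rfl

lemma det_deriv0 (B : Matrix (Fin n) (Fin n) 𝕜) :
    HasDerivAt (fun r : 𝕜 => (1 + r • B).det) B.trace 0 := by
  have e : (fun r : 𝕜 => (1 + r • B).det) = fun r => 1 + B.trace * r +
      (((1 + (Polynomial.X : Polynomial 𝕜) • B.map Polynomial.C).det).divX.divX.eval r) * r ^ 2 := by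
    funext r
    exact Matrix.det_one_add_smul r B
  rw [e]
  have h1 : HasDerivAt (fun r : 𝕜 => 1 + B.trace * r) B.trace 0 := by
    have := ((hasDerivAt_id (0 : 𝕜)).const_mul B.trace).const_add 1
    simpa using this
  have h2 := (((1 + (Polynomial.X : Polynomial 𝕜) • B.map Polynomial.C).det).divX.divX.hasDerivAt
    (0 : 𝕜)).mul ((hasDerivAt_id (0 : 𝕜)).pow 2)
  exact HasDerivAt.congr_deriv (h1.add h2) (by simp)

lemma det_deriv (K : Matrix (Fin n) (Fin n) 𝕜) {t : 𝕜} (h : IsUnit (1 + t • K)) :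
    HasDerivAt (fun s : 𝕜 => (1 + s • K).det) ((1 + t • K).det * (NN K t * K).trace) t := by
  have e : (fun s : 𝕜 => (1 + s • K).det) = fun s => (1 + t • K).det *
      (1 + (s - t) • (NN K t * K)).det := by
    funext s
    rw [← Matrix.det_mul]
    congr 1
    rw [mul_add, mul_one, Matrix.mul_smul, ← mul_assoc, NN_mul K h, one_mul, add_assoc,
      ← add_smul]
    congr 2
    ring
  rw [e]
  have h1 := det_deriv0 (NN K t * K)
  have h3 : HasDerivAt (fun r : 𝕜 => (1 + r • (NN K t * K)).det) (NN K t * K).trace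
      (t - t) := by
    rw [sub_self]
    exact h1
  exact (h3.comp_sub_const t t).const_mul (1 + t • K).det

/-- Third derivative of the determinant in the direction of a matrix with trace zero. -/
lemma det_third (K : Matrix (Fin n) (Fin n) 𝕜) (hK : K.trace = 0) :
    iteratedDeriv 3 (fun t : 𝕜 => (1 + t • K).det) 0 = 2 * (K * K * K).trace := by
  let d : 𝕜 → 𝕜 := fun t => (1 + t • K).det
  let tr := Matrix.traceLinearMap (Fin n) 𝕜 𝕜
  let τ : 𝕜 → 𝕜 := fun t => tr (NN K t * K)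
  let τ1 : 𝕜 → 𝕜 := fun t => tr (-(NN K t * K * NN K t) * K)
  let τ2 : 𝕜 → 𝕜 := fun t => tr ((2 : 𝕜) • (NN K t * K * NN K t * K * NN K t) * K)
  have hd : ∀ᶠ t : 𝕜 in 𝓝 0, HasDerivAt d (d t * τ t) t := by
    filter_upwards [unit_ev K] with t ht
    exact det_deriv K ht
  have hτ : ∀ᶠ t : 𝕜 in 𝓝 0, HasDerivAt τ (τ1 t) t := by
    filter_upwards [unit_ev K] with t ht
    exact NN_one K K tr ht
  have hτ1 : ∀ᶠ t : 𝕜 in 𝓝 0, HasDerivAt τ1 (τ2 t) t := by
    filter_upwards [unit_ev K] with t ht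
    exact NN_two K K tr ht
  have e1 : deriv d =ᶠ[𝓝 0] fun t => d t * τ t := by
    filter_upwards [hd] with t ht
    exact ht.deriv
  have e2 : iteratedDeriv 2 d =ᶠ[𝓝 0] fun t => (d t * τ t) * τ t + d t * τ1 t := by
    filter_upwards [e1.eventually_nhds, hd, hτ] with t h1 h2 h3
    rw [iteratedDeriv_succ, iteratedDeriv_one]
    have h4 : deriv d =ᶠ[𝓝 t] fun t => d t * τ t := h1
    rw [h4.deriv_eq]
    exact (h2.mul h3).deriv
  have hd0 := hd.self_of_nhds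
  have hτ0 := hτ.self_of_nhds
  have hτ10 := hτ1.self_of_nhds
  show iteratedDeriv 3 d 0 = _
  rw [iteratedDeriv_succ, e2.deriv_eq]
  have h5 := ((hd0.mul hτ0).mul hτ0).add (hd0.mul hτ10)
  have h6 : HasDerivAt (fun t => (d t * τ t) * τ t + d t * τ1 t) _ 0 := h5
  rw [h6.deriv]
  have z1 : τ 0 = 0 := by
    show (NN K 0 * K).trace = 0
    rw [NN_zero, one_mul, hK]
  have z2 : d 0 = 1 := by
    show (1 + (0 : 𝕜) • K).det = 1
    simp
  have z3 : τ2 0 = 2 * (K * K * K).trace := by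
    show ((2 : 𝕜) • (NN K 0 * K * NN K 0 * K * NN K 0) * K).trace = _
    rw [NN_zero]
    simp only [one_mul, mul_one, Matrix.smul_mul, Matrix.trace_smul, smul_eq_mul]
  simp only [Pi.mul_apply, z1, z2, z3]
  ring

end Pool.Agent.X214.OM
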