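import Pool.Agent.X214.OM.Final

/-!
# Functions of one matrix: exponents
-/

set_option autoImplicit false
set_option linter.unusedSectionVars false

namespace Pool.Agent.X214.OM

open Topology Filter Module Pool.Agent.H515R2.MMR Pool.Agent.H53R3
open Pool.Agent.X214.LG (eN real_alg bl bl_apply Blk card_blk bl_mul_bl exists_hom)

section upper

variable {𝕜 : Type} [RCLike 𝕜] {n m a b : ℕ}

/-- The first `m` entries. -/
noncomputable def matM (n m : ℕ) : (Fin m → 𝕜) →ₗ[𝕜] Matrix (Fin n) (Fin n) 𝕜 where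
  toFun x := Matrix.of fun i j => if h : (eN n (i, j) : ℕ) < m then x ⟨_, h⟩ else 0
  map_add' x y := by
    refine Matrix.ext fun i j => ?_
    simp only [Matrix.of_apply, Matrix.add_apply, Pi.add_apply]
    split_ifs <;> simp
  map_smul' c x := by
    refine Matrix.ext fun i j => ?_
    simp only [Matrix.of_apply, Matrix.smul_apply, Pi.smul_apply, RingHom.id_apply]
    split_ifs <;> simp

lemma matM_inj (hm : m ≤ n ^ 2) : Function.Injective (matM n m : (Fin m → 𝕜) →ₗ[𝕜] _) := by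
  intro x y hxy
  funext r
  have h1 := congrFun (congrFun hxy ((eN n).symm (Fin.castLE hm r)).1)
    ((eN n).symm (Fin.castLE hm r)).2
  have h2 : ∀ z : Fin m → 𝕜, (matM n m z) ((eN n).symm (Fin.castLE hm r)).1
      ((eN n).symm (Fin.castLE hm r)).2 = z r := by
    intro z
    show (if h : (eN n (((eN n).symm (Fin.castLE hm r)).1,
      ((eN n).symm (Fin.castLE hm r)).2) : ℕ) < m then z ⟨_, h⟩ else 0) = z r
    have h3 : (eN n (((eN n).symm (Fin.castLE hm r)).1,
      ((eN n).symm (Fin.castLE hm r)).2) : Fin (n ^ 2)) = Fin.castLE hm r := by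
      rw [Prod.mk.eta, Equiv.apply_symm_apply]
    rw [dif_pos (by rw [h3]; exact r.2)]
    congr 1
    exact Fin.ext (by simp [h3])
  rw [h2, h2] at h1
  exact h1

lemma avail_lin {g : ℕ → Fin b → (Fin m → 𝕜) → 𝕜} {l : ℕ} (ℓ : (Fin m → 𝕜) →ₗ[𝕜] 𝕜) :
    (fun x => ℓ x) ∈ Avail g l := by
  classical
  have e : (fun x => ℓ x) = ∑ r, ℓ (Pi.single r 1) • (fun x : Fin m → 𝕜 => x r) := by
    funext x
    have h1 : x = ∑ r, x r • (Pi.single r (1 : 𝕜) : Fin m → 𝕜) := by
      funext j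
      simp [Finset.sum_apply, Pi.single_apply]
    conv_lhs => rw [h1]
    simp only [map_sum, map_smul, Finset.sum_apply, Pi.smul_apply, smul_eq_mul]
    exact Finset.sum_congr rfl fun r _ => mul_comm _ _
  rw [e]
  exact Submodule.sum_mem _ fun r _ => Submodule.smul_mem _ _
    (Submodule.subset_span (Or.inr (Or.inl ⟨r, rfl⟩)))

lemma mul_gate_contDiff {a b r : ℕ} (ha : 2 ≤ a) (v : Fin a → 𝕜) :
    ContDiffAt 𝕜 r (fun (v : Fin a → 𝕜) (_ : Fin b) => v ⟨0, by omega⟩ * v ⟨1, by omega⟩) v := by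
  refine contDiffAt_pi.mpr fun o => ?_
  have h0 : ContDiff 𝕜 r fun v : Fin a → 𝕜 => v ⟨0, by omega⟩ := contDiff_apply 𝕜 𝕜 _
  have h1 : ContDiff 𝕜 r fun v : Fin a → 𝕜 => v ⟨1, by omega⟩ := contDiff_apply 𝕜 𝕜 _
  exact (h0.mul h1).contDiffAt

lemma iter_sq (c : 𝕜) : iteratedDeriv 2 (fun t : 𝕜 => t ^ 2 * c) 0 = 2 * c := by
  rw [iteratedDeriv_succ, iteratedDeriv_one]
  have e1 : deriv (fun t : 𝕜 => t ^ 2 * c) = fun t => 2 * t * c := by
    funext t
    have h := ((hasDerivAt_id t).pow 2).mul_const c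
    have := h.deriv
    simpa using this
  rw [e1]
  have h : HasDerivAt (fun t : 𝕜 => 2 * t * c) (2 * 1 * c) 0 :=
    ((hasDerivAt_id (0 : 𝕜)).const_mul 2).mul_const c
  rw [h.deriv, mul_one]

lemma iter_cube (c : 𝕜) : iteratedDeriv 3 (fun t : 𝕜 => t ^ 3 * c) 0 = 6 * c := by
  rw [iteratedDeriv_succ', ]
  have e1 : deriv (fun t : 𝕜 => t ^ 3 * c) = fun t => t ^ 2 * (3 * c) := by
    funext t
    have h := ((hasDerivAt_id t).pow 3).mul_const c
    have := h.deriv
    simp only [id, mul_one] at this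
    have e : (fun y : 𝕜 => y ^ 3 * c) = fun y : 𝕜 => (id ^ 3 : 𝕜 → 𝕜) y * c := rfl
    rw [e, this]
    push_cast
    ring
  rw [e1, iter_sq]
  ring

/-- Squares from bilinear algorithms. -/
theorem square_of_alg {κ : Type} [Fintype κ] (ha : 2 ≤ a) (hb : 1 ≤ b)
    (hm : m ≤ n ^ 2) (f g : κ → (Matrix (Fin n) (Fin n) 𝕜 →ₗ[𝕜] 𝕜))
    (W : κ → Matrix (Fin n) (Fin n) 𝕜) (H : ∀ A B, A * B = ∑ t, (f t A * g t B) • W t) :
    SquareLike 𝕜 n m a b (Fintype.card κ) := by
  classical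
  set L := Fintype.card κ with hL
  let e : κ ≃ Fin L := Fintype.equivFin κ
  let M : (Fin m → 𝕜) →ₗ[𝕜] Matrix (Fin n) (Fin n) 𝕜 := matM n m
  let p : ℕ → (Fin m → 𝕜) →ₗ[𝕜] 𝕜 := fun l => if h : l < L then (f (e.symm ⟨l, h⟩)).comp M else 0
  let q : ℕ → (Fin m → 𝕜) →ₗ[𝕜] 𝕜 := fun l => if h : l < L then (g (e.symm ⟨l, h⟩)).comp M else 0
  let gg : ℕ → Fin b → (Fin m → 𝕜) → 𝕜 := fun l _ x => p l x * q l x
  refine ⟨M, (2 : 𝕜) • 1, 1, fun ij x => (M x * M x) ij.1 ij.2, matM_inj hm, ?_, isUnit_one,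
    ⟨Set.univ, gg, ⟨isOpen_univ, ?_⟩, Set.mem_univ _, ?_⟩, ?_⟩
  · have : (2 : 𝕜) • (1 : Matrix (Fin n) (Fin n) 𝕜) = (Units.mk0 (2 : 𝕜) (by norm_num)) •
      (1 : Matrix (Fin n) (Fin n) 𝕜) := rfl
    rw [this]
    exact isUnit_one.smul _
  · intro l hl
    refine ⟨fun i => if (i : ℕ) = 0 then fun x => p l x else fun x => q l x,
      fun v _ => v ⟨0, by omega⟩ * v ⟨1, by omega⟩, ?_, ?_⟩
    · intro i
      by_cases hi : (i : ℕ) = 0
      · simp only [if_pos hi]; exact avail_lin (p l)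
      · simp only [if_neg hi]; exact avail_lin (q l)
    · intro x _
      exact ⟨mul_gate_contDiff ha _, fun o => by simp [gg]⟩
  · intro ij
    refine ⟨∑ t, W t ij.1 ij.2 • gg (e t) ⟨0, hb⟩, Submodule.sum_mem _ fun t _ =>
      Submodule.smul_mem _ _ (Submodule.subset_span (Or.inr (Or.inr ⟨e t, (e t).2, ⟨0, hb⟩,
        rfl⟩))), Eventually.of_forall fun x => ?_⟩
    beta_reduce
    rw [H, Matrix.sum_apply, Finset.sum_apply]
    refine Finset.sum_congr rfl fun t _ => ?_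
    have h1 : p (e t) = (f t).comp M := by
      simp only [p]
      rw [dif_pos (e t).2]
      congr 2
      exact e.symm_apply_apply t
    have h2 : q (e t) = (g t).comp M := by
      simp only [q]
      rw [dif_pos (e t).2]
      congr 2
      exact e.symm_apply_apply t
    simp only [Matrix.smul_apply, Pi.smul_apply, smul_eq_mul, gg, h1, h2, LinearMap.comp_apply]
    ring
  · intro x i j
    have e1 : (fun t : 𝕜 => (M (t • x) * M (t • x)) i j) = fun t => t ^ 2 * (M x * M x) i j := by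
      funext t
      rw [map_smul, Matrix.smul_mul, Matrix.mul_smul, smul_smul, Matrix.smul_apply, smul_eq_mul]
      ring
    show iteratedDeriv 2 (fun t : 𝕜 => (M (t • x) * M (t • x)) i j) 0 =
      ((((2 : 𝕜) • (1 : Matrix (Fin n) (Fin n) 𝕜)) * (M x * M x) *
        (1 : Matrix (Fin n) (Fin n) 𝕜) : Matrix (Fin n) (Fin n) 𝕜)) i j
    rw [e1, iter_sq]
    simp

/-- Cubes from bilinear algorithms. -/
theorem cube_of_alg {κ : Type} [Fintype κ] (ha : 2 ≤ a) (hb : 1 ≤ b)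
    (hm : m ≤ n ^ 2) (f g : κ → (Matrix (Fin n) (Fin n) 𝕜 →ₗ[𝕜] 𝕜))
    (W : κ → Matrix (Fin n) (Fin n) 𝕜) (H : ∀ A B, A * B = ∑ t, (f t A * g t B) • W t) :
    CubeLike 𝕜 n m a b (2 * Fintype.card κ) := by
  classical
  set K := Fintype.card κ with hK
  let e : κ ≃ Fin K := Fintype.equivFin κ
  let M : (Fin m → 𝕜) →ₗ[𝕜] Matrix (Fin n) (Fin n) 𝕜 := matM n m
  let trm : Matrix (Fin n) (Fin n) 𝕜 → (Matrix (Fin n) (Fin n) 𝕜 →ₗ[𝕜] 𝕜) := fun W =>
    (Matrix.traceLinearMap (Fin n) 𝕜 𝕜).comp (LinearMap.mulLeft 𝕜 W)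
  have htrm : ∀ W D, trm W D = (W * D).trace := fun _ _ => rfl
  let p : ℕ → (Fin m → 𝕜) →ₗ[𝕜] 𝕜 := fun l => if h : l < K then (f (e.symm ⟨l, h⟩)).comp M else 0
  let q : ℕ → (Fin m → 𝕜) →ₗ[𝕜] 𝕜 := fun l => if h : l < K then (g (e.symm ⟨l, h⟩)).comp M else 0
  let w : ℕ → (Fin m → 𝕜) →ₗ[𝕜] 𝕜 := fun l =>
    if h : l < K then (trm (W (e.symm ⟨l, h⟩))).comp M else 0
  let gg : ℕ → Fin b → (Fin m → 𝕜) → 𝕜 := fun l _ x =>
    if l < K then p l x * q l x else (p (l - K) x * q (l - K) x) * w (l - K) x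
  refine ⟨M, 6, fun x => (M x * M x * M x).trace, matM_inj hm, by norm_num,
    ⟨Set.univ, gg, ⟨isOpen_univ, ?_⟩, Set.mem_univ _, ?_⟩, ?_⟩
  · intro l hl
    by_cases hlK : l < K
    · refine ⟨fun i => if (i : ℕ) = 0 then fun x => p l x else fun x => q l x,
        fun v _ => v ⟨0, by omega⟩ * v ⟨1, by omega⟩, ?_, ?_⟩
      · intro i
        by_cases hi : (i : ℕ) = 0
        · simp only [if_pos hi]; exact avail_lin (p l)
        · simp only [if_neg hi]; exact avail_lin (q l)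
      · intro x _
        exact ⟨mul_gate_contDiff ha _, fun o => by simp [gg, hlK]⟩
    · refine ⟨fun i => if (i : ℕ) = 0 then gg (l - K) ⟨0, hb⟩ else fun x => w (l - K) x,
        fun v _ => v ⟨0, by omega⟩ * v ⟨1, by omega⟩, ?_, ?_⟩
      · intro i
        by_cases hi : (i : ℕ) = 0
        · simp only [if_pos hi]
          exact Submodule.subset_span (Or.inr (Or.inr ⟨l - K, by omega, ⟨0, hb⟩, rfl⟩))
        · simp only [if_neg hi]; exact avail_lin (w (l - K))
      · intro x _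
        have h1 : l - K < K := by omega
        exact ⟨mul_gate_contDiff ha _, fun o => by simp [gg, hlK, h1]⟩
  · intro _
    refine ⟨∑ t, gg (K + e t) ⟨0, hb⟩, Submodule.sum_mem _ fun t _ =>
      Submodule.subset_span (Or.inr (Or.inr ⟨K + e t, by have := (e t).2; omega, ⟨0, hb⟩,
        rfl⟩)), Eventually.of_forall fun x => ?_⟩
    beta_reduce
    rw [H (M x) (M x), Finset.sum_mul, Matrix.trace_sum, Finset.sum_apply]
    refine Finset.sum_congr rfl fun t _ => ?_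
    have h1 : p (e t) = (f t).comp M := by
      simp only [p]
      rw [dif_pos (e t).2]
      congr 2
      exact e.symm_apply_apply t
    have h2 : q (e t) = (g t).comp M := by
      simp only [q]
      rw [dif_pos (e t).2]
      congr 2
      exact e.symm_apply_apply t
    have h3 : w (e t) = (trm (W t)).comp M := by
      simp only [w]
      rw [dif_pos (e t).2]
      congr 3
      exact e.symm_apply_apply t
    have h4 : ¬ K + (e t : ℕ) < K := by omega
    have h5 : K + (e t : ℕ) - K = e t := by omega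
    simp only [gg, if_neg h4, h5, h1, h2, h3, LinearMap.comp_apply, htrm, Matrix.smul_mul,
      Matrix.trace_smul, smul_eq_mul]
  · intro x _
    have e1 : (fun t : 𝕜 => (M (t • x) * M (t • x) * M (t • x)).trace) =
        fun t => t ^ 3 * (M x * M x * M x).trace := by
      funext t
      simp only [map_smul, Matrix.smul_mul, Matrix.mul_smul, smul_smul, Matrix.trace_smul,
        smul_eq_mul]
      ring
    show iteratedDeriv 3 (fun t : 𝕜 => (M (t • x) * M (t • x) * M (t • x)).trace) 0 =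
      6 * (M x * M x * M x).trace
    rw [e1, iter_cube]

/-- Sharpness for squares. -/
theorem sharp_square (n a b : ℕ) : SquareLike 𝕜 n (n ^ 2 / 4) a b 0 := by
  classical
  let E : {p : Fin n × Fin n // Blk p} ≃ Fin (n ^ 2 / 4) :=
    (Fintype.equivFin _).trans (finCongr (card_blk n))
  let v : (Fin (n ^ 2 / 4) → 𝕜) → (Fin n × Fin n → 𝕜) := fun z p =>
    if h : Blk p then z (E ⟨p, h⟩) else 0
  let M : (Fin (n ^ 2 / 4) → 𝕜) →ₗ[𝕜] Matrix (Fin n) (Fin n) 𝕜 :=
    { toFun := fun x => bl (v x)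
      map_add' := fun x y => by
        refine Matrix.ext fun i j => ?_
        simp only [bl_apply, Matrix.add_apply, v]
        split_ifs <;> simp
      map_smul' := fun c x => by
        refine Matrix.ext fun i j => ?_
        simp only [bl_apply, Matrix.smul_apply, v, RingHom.id_apply]
        split_ifs <;> simp }
  have hMa : ∀ x, M x = bl (v x) := fun _ => rfl
  refine ⟨M, 1, 1, fun _ _ => 0, ?_, isUnit_one, isUnit_one, ⟨Set.univ, fun _ _ _ => 0,
    ⟨isOpen_univ, fun l hl => absurd hl (Nat.not_lt_zero l)⟩, Set.mem_univ _, fun _ =>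
    ⟨0, Submodule.zero_mem _, Eventually.of_forall fun _ => rfl⟩⟩, fun x i j => ?_⟩
  · intro x y hxy
    funext r
    obtain ⟨⟨⟨i, j⟩, hb⟩, rfl⟩ := E.surjective r
    have h1 : M x i j = M y i j := congrFun (congrFun hxy i) j
    rw [hMa, hMa, bl_apply, bl_apply, if_pos hb, if_pos hb] at h1
    simp only [v, dif_pos hb] at h1
    exact h1
  · show iteratedDeriv 2 (fun t : 𝕜 => (0 : 𝕜)) 0 =
      (((1 : Matrix (Fin n) (Fin n) 𝕜) * (M x * M x) * (1 : Matrix (Fin n) (Fin n) 𝕜) :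
        Matrix (Fin n) (Fin n) 𝕜)) i j
    rw [hMa, bl_mul_bl, mul_zero, zero_mul, Matrix.zero_apply, iteratedDeriv_const]
    simp

/-- Sharpness for cubes. -/
theorem sharp_cube (n a b : ℕ) : ∃ m : ℕ, n ^ 2 ≤ 2 * m + n ∧ CubeLike 𝕜 n m a b 0 := by
  classical
  let m := Fintype.card {p : Fin n × Fin n // p.1 < p.2}
  have hm : n ^ 2 ≤ 2 * m + n := by
    have h1 : (Finset.univ.filter fun p : Fin n × Fin n => p.1 < p.2).card +
        (Finset.univ.filter fun p : Fin n × Fin n => ¬ p.1 < p.2).card = n ^ 2 := by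
      rw [Finset.card_filter_add_card_filter_not]
      simp [sq]
    have h2 : (Finset.univ.filter fun p : Fin n × Fin n => ¬ p.1 < p.2) ⊆
        ((Finset.univ.filter fun p : Fin n × Fin n => p.1 < p.2).image Prod.swap) ∪
        (Finset.univ.image fun i : Fin n => (i, i)) := by
      intro p hp
      simp only [Finset.mem_filter, Finset.mem_univ, true_and, not_lt] at hp
      rw [Finset.mem_union]
      rcases hp.lt_or_eq with h | h
      · left
        rw [Finset.mem_image]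
        exact ⟨(p.2, p.1), by simpa using h, rfl⟩
      · right
        rw [Finset.mem_image]
        exact ⟨p.1, Finset.mem_univ _, Prod.ext rfl h.symm⟩
    have h3 := (Finset.card_le_card h2).trans (Finset.card_union_le _ _)
    have h4 : ((Finset.univ.filter fun p : Fin n × Fin n => p.1 < p.2).image Prod.swap).card ≤
        (Finset.univ.filter fun p : Fin n × Fin n => p.1 < p.2).card := Finset.card_image_le
    have h5 : (Finset.univ.image fun i : Fin n => (i, i)).card ≤ n := by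
      refine Finset.card_image_le.trans ?_
      simp
    have h6 : m = (Finset.univ.filter fun p : Fin n × Fin n => p.1 < p.2).card :=
      Fintype.card_subtype _
    omega
  refine ⟨m, hm, ?_⟩
  let E : {p : Fin n × Fin n // p.1 < p.2} ≃ Fin m := Fintype.equivFin _
  let M : (Fin m → 𝕜) →ₗ[𝕜] Matrix (Fin n) (Fin n) 𝕜 :=
    { toFun := fun x => Matrix.of fun i j => if h : i < j then x (E ⟨(i, j), h⟩) else 0
      map_add' := fun x y => by
        refine Matrix.ext fun i j => ?_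
        simp only [Matrix.of_apply, Matrix.add_apply]
        split_ifs <;> simp
      map_smul' := fun c x => by
        refine Matrix.ext fun i j => ?_
        simp only [Matrix.of_apply, Matrix.smul_apply, RingHom.id_apply]
        split_ifs <;> simp }
  have hMa : ∀ x i j, M x i j = if h : i < j then x (E ⟨(i, j), h⟩) else 0 := fun _ _ _ => rfl
  have hM0 : ∀ x i j, ¬ i < j → M x i j = 0 := fun x i j h => by rw [hMa, dif_neg h]
  refine ⟨M, 1, fun _ => 0, ?_, one_ne_zero, ⟨Set.univ, fun _ _ _ => 0,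
    ⟨isOpen_univ, fun l hl => absurd hl (Nat.not_lt_zero l)⟩, Set.mem_univ _, fun _ =>
    ⟨0, Submodule.zero_mem _, Eventually.of_forall fun _ => rfl⟩⟩, fun x _ => ?_⟩
  · intro x y hxy
    funext r
    obtain ⟨⟨⟨i, j⟩, hb⟩, rfl⟩ := E.surjective r
    have h1 : M x i j = M y i j := congrFun (congrFun hxy i) j
    have hb' : i < j := hb
    rw [hMa, hMa, dif_pos hb', dif_pos hb'] at h1
    exact h1
  · have htr : (M x * M x * M x).trace = 0 := by
      rw [Matrix.trace]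
      refine Finset.sum_eq_zero fun i _ => ?_
      rw [Matrix.diag_apply, Matrix.mul_apply]
      refine Finset.sum_eq_zero fun k _ => ?_
      rw [Matrix.mul_apply, Finset.sum_mul]
      refine Finset.sum_eq_zero fun j _ => ?_
      by_cases h1 : i < j
      · by_cases h2 : j < k
        · have h3 : ¬ k < i := not_lt.mpr (h1.trans h2).le
          rw [hM0 x k i h3, mul_zero]
        · rw [hM0 x j k h2, mul_zero, zero_mul]
      · rw [hM0 x i j h1, zero_mul, zero_mul]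
    show iteratedDeriv 3 (fun t : 𝕜 => (0 : 𝕜)) 0 = 1 * (M x * M x * M x).trace
    rw [htr, mul_zero, iteratedDeriv_const]
    simp

end upper

theorem square_bound {𝕜 : Type} [RCLike 𝕜] {n m a b L q : ℕ} (h : SquareLike 𝕜 n m a b L)
    (hq : 1 ≤ q) (hd : n ^ 2 + (16 * q + 4) * n < 4 * m) :
    (q : ℝ) ^ omega ≤ (L * (a * min a b) : ℕ) := by
  obtain ⟨σ⟩ := exists_hom 𝕜
  obtain ⟨M, P, Q, F, hM, hP, hQ, hc, h2⟩ := h
  exact lower2 σ hM hP hQ hc h2 hq hd

theorem cube_bound {𝕜 : Type} [RCLike 𝕜] {n m a b L q : ℕ} (h : CubeLike 𝕜 n m a b L)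
    (hq : 1 ≤ q) (hd : n ^ 2 + (3 * q + 2) * n + 2 < 2 * m) :
    (q : ℝ) ^ omega ≤ (3 * (L * (a * a)) : ℕ) := by
  obtain ⟨σ⟩ := exists_hom 𝕜
  obtain ⟨M, γ, f, hM, hγ, hc, h3⟩ := h
  exact lower3 σ hM hγ hc h3 hq hd

theorem square_asymp {ε : ℝ} (hε : 0 < ε) : ∃ c : ℝ, 0 < c ∧ ∃ n₀ : ℕ,
    ∀ (𝕜 : Type) [RCLike 𝕜] (n m a b L : ℕ), n₀ ≤ n → SquareLike 𝕜 n m a b L →
      (1 / 4 + ε) * (n : ℝ) ^ 2 ≤ m → c * (n : ℝ) ^ omega ≤ ((L * (a * min a b) : ℕ) : ℝ) := by
  obtain ⟨n₂, hn₂⟩ := exists_nat_gt (48 / ε)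
  refine ⟨(ε / 16) ^ omega, by positivity, n₂ + 1, ?_⟩
  intro 𝕜 _ n m a b L hn H hd
  have h2' : (n₂ : ℝ) + 1 ≤ n := by exact_mod_cast hn
  have hn48 : 48 / ε < n := by linarith
  have hεn : 48 < ε * n := by
    rw [div_lt_iff₀ hε] at hn48
    linarith
  have hn0 : (0 : ℝ) < n := by
    by_contra hcon
    push Not at hcon
    nlinarith
  set q : ℕ := ⌈ε * n / 16⌉₊ with hq
  have hq1 : 1 ≤ q := by
    rw [hq]
    exact Nat.one_le_iff_ne_zero.mpr (Nat.ceil_pos.mpr (by positivity)).ne'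
  have hqle : (q : ℝ) < ε * n / 16 + 1 := Nat.ceil_lt_add_one (by positivity)
  have hqge : ε * n / 16 ≤ q := Nat.le_ceil _
  have hdim : n ^ 2 + (16 * q + 4) * n < 4 * m := by
    have : ((n ^ 2 + (16 * q + 4) * n : ℕ) : ℝ) < ((4 * m : ℕ) : ℝ) := by
      push_cast
      have h3 : (16 * (q : ℝ) + 4) * n < (ε * n + 20) * n := by
        apply mul_lt_mul_of_pos_right _ hn0
        linarith
      nlinarith
    exact_mod_cast this
  refine le_trans ?_ (square_bound H hq1 hdim)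
  rw [← Real.mul_rpow (by positivity) (by positivity)]
  refine Real.rpow_le_rpow (by positivity) ?_ omega_nonneg
  linarith

theorem cube_asymp {ε : ℝ} (hε : 0 < ε) : ∃ c : ℝ, 0 < c ∧ ∃ n₀ : ℕ,
    ∀ (𝕜 : Type) [RCLike 𝕜] (n m a b L : ℕ), n₀ ≤ n → CubeLike 𝕜 n m a b L →
      (1 / 2 + ε) * (n : ℝ) ^ 2 ≤ m → c * (n : ℝ) ^ omega ≤ ((L * (a * a) : ℕ) : ℝ) := by
  obtain ⟨n₂, hn₂⟩ := exists_nat_gt (10 / ε)
  refine ⟨(ε / 8) ^ omega / 3, by positivity, n₂ + 1, ?_⟩
  intro 𝕜 _ n m a b L hn H hd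
  have h2' : (n₂ : ℝ) + 1 ≤ n := by exact_mod_cast hn
  have hn8 : 10 / ε < n := by linarith
  have hεn : 10 < ε * n := by
    rw [div_lt_iff₀ hε] at hn8
    linarith
  have hn0 : (0 : ℝ) < n := by
    by_contra hcon
    push Not at hcon
    nlinarith
  have hn1 : (1 : ℝ) ≤ n := by
    have : 0 < n := by exact_mod_cast hn0
    exact_mod_cast this
  set q : ℕ := ⌈ε * n / 8⌉₊ with hq
  have hq1 : 1 ≤ q := Nat.one_le_iff_ne_zero.mpr (Nat.ceil_pos.mpr (by positivity)).ne'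
  have hqle : (q : ℝ) < ε * n / 8 + 1 := Nat.ceil_lt_add_one (by positivity)
  have hqge : ε * n / 8 ≤ q := Nat.le_ceil _
  have hdim : n ^ 2 + (3 * q + 2) * n + 2 < 2 * m := by
    have : ((n ^ 2 + (3 * q + 2) * n + 2 : ℕ) : ℝ) < ((2 * m : ℕ) : ℝ) := by
      push_cast
      have h3 : (3 * (q : ℝ) + 2) * n < (3 * (ε * n / 8) + 5) * n := by
        apply mul_lt_mul_of_pos_right _ hn0
        linarith
      have h4 : (3 * (ε * n / 8) + 5) * n + 2 * n ≤ 2 * ε * n * n := by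
        have h5 : (3 * (ε * n / 8) + 5) + 2 ≤ 2 * (ε * n) := by linarith
        nlinarith
      nlinarith
    exact_mod_cast this
  have hb := cube_bound H hq1 hdim
  have h4 : (ε / 8) ^ omega * (n : ℝ) ^ omega ≤ (q : ℝ) ^ omega := by
    rw [← Real.mul_rpow (by positivity) (by positivity)]
    refine Real.rpow_le_rpow (by positivity) ?_ omega_nonneg
    linarith
  have h6 : ((3 * (L * (a * a)) : ℕ) : ℝ) = 3 * ((L * (a * a) : ℕ) : ℝ) := by push_cast; ring
  rw [h6] at hb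
  linarith

/-- From bounds to the exponent. -/
theorem exponent_of {T : ℕ → ℕ → Prop} {c K : ℝ} (hc : 0 < c) (hK : 0 < K) {n₀ B : ℕ}
    (hlow : ∀ n L, n₀ ≤ n → T n L → c * (n : ℝ) ^ omega ≤ L * K)
    (hup : ∀ n, ∃ L, T n L ∧ L ≤ B * rk n) :
    gateExponent T = omega := by
  unfold gateExponent
  have hlb : ∀ τ ∈ {τ : ℝ | ∃ C : ℝ, ∀ n : ℕ, ∃ L : ℕ, T n L ∧
      (L : ℝ) ≤ C * (n : ℝ) ^ τ}, omega ≤ τ := by
    rintro τ ⟨C, hC⟩
    by_contra hcon
    push Not at hcon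
    have t := (tendsto_rpow_atTop (y := omega - τ) (by linarith)).comp
      (tendsto_natCast_atTop_atTop (R := ℝ))
    obtain ⟨n, hn1, hn2⟩ := ((t.eventually (eventually_gt_atTop (C * K / c))).and
      (eventually_ge_atTop (max 1 n₀))).exists
    obtain ⟨L, hL1, hL2⟩ := hC n
    have hn3 : 1 ≤ n := le_trans (le_max_left _ _) hn2
    have hn4 : n₀ ≤ n := le_trans (le_max_right _ _) hn2
    have hn0 : (0 : ℝ) < n := by exact_mod_cast hn3
    have h1 := hlow n L hn4 hL1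
    have h2 : c * (n : ℝ) ^ omega ≤ C * (n : ℝ) ^ τ * K := by
      refine h1.trans ?_
      gcongr
    have h3 : (n : ℝ) ^ omega = (n : ℝ) ^ (omega - τ) * (n : ℝ) ^ τ := by
      rw [← Real.rpow_add hn0]; congr 1; ring
    rw [h3] at h2
    simp only [Function.comp] at hn1
    have h4 : 0 < (n : ℝ) ^ τ := Real.rpow_pos_of_pos hn0 _
    rw [div_lt_iff₀ hc] at hn1
    nlinarith
  have hsub : {τ : ℝ | ∃ C : ℝ, ∀ n : ℕ, (rk n : ℝ) ≤ C * (n : ℝ) ^ τ} ⊆
      {τ : ℝ | ∃ C : ℝ, ∀ n : ℕ, ∃ L : ℕ, T n L ∧ (L : ℝ) ≤ C * (n : ℝ) ^ τ} := by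
    rintro τ ⟨C, hC⟩
    refine ⟨B * C, fun n => ?_⟩
    obtain ⟨L, h1, h2⟩ := hup n
    refine ⟨L, h1, ?_⟩
    have h3 : (L : ℝ) ≤ B * rk n := by exact_mod_cast h2
    have h4 := mul_le_mul_of_nonneg_left (hC n) (Nat.cast_nonneg (α := ℝ) B)
    rw [← mul_assoc] at h4
    exact h3.trans h4
  refine le_antisymm ?_ ?_
  · exact csInf_le_csInf ⟨omega, hlb⟩ omega_set_nonempty hsub
  · exact le_csInf (omega_set_nonempty.mono hsub) hlb

theorem square_exponent {a b : ℕ} (ha : 2 ≤ a) (hb : 1 ≤ b) {ε : ℝ} (hε : 0 < ε) (m : ℕ → ℕ)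
    (hm : ∀ n, m n ≤ n ^ 2) (hm' : ∀ᶠ n : ℕ in atTop, (1 / 4 + ε) * (n : ℝ) ^ 2 ≤ m n) :
    gateExponent (fun n L => SquareLike ℝ n (m n) a b L) = omega := by
  obtain ⟨c, hc, n₀, hlow⟩ := square_asymp hε
  obtain ⟨n₁, hn₁⟩ := eventually_atTop.mp hm'
  have hK0 : (0 : ℝ) < ((a * min a b : ℕ) : ℝ) := by
    have : 0 < a * min a b := Nat.mul_pos (by omega) (by omega)
    exact_mod_cast this
  refine exponent_of (T := fun n L => SquareLike ℝ n (m n) a b L) hc hK0 (n₀ := max n₀ n₁)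
    (B := 4) ?_ ?_
  · intro n L hn h
    have := hlow ℝ n (m n) a b L ((le_max_left _ _).trans hn) h
      (hn₁ n ((le_max_right _ _).trans hn))
    rwa [Nat.cast_mul] at this
  · intro n
    obtain ⟨f, g, W, H⟩ := real_alg (hasRank_rk n)
    refine ⟨_, square_of_alg ha hb (hm n) f g W H, ?_⟩
    rw [Fintype.card_prod, Fintype.card_fin, Fintype.card_fin, mul_comm]

theorem cube_exponent {a b : ℕ} (ha : 2 ≤ a) (hb : 1 ≤ b) {ε : ℝ} (hε : 0 < ε) (m : ℕ → ℕ)
    (hm : ∀ n, m n ≤ n ^ 2) (hm' : ∀ᶠ n : ℕ in atTop, (1 / 2 + ε) * (n : ℝ) ^ 2 ≤ m n) :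
    gateExponent (fun n L => CubeLike ℝ n (m n) a b L) = omega := by
  obtain ⟨c, hc, n₀, hlow⟩ := cube_asymp hε
  obtain ⟨n₁, hn₁⟩ := eventually_atTop.mp hm'
  have hK0 : (0 : ℝ) < ((a * a : ℕ) : ℝ) := by
    have : 0 < a * a := Nat.mul_pos (by omega) (by omega)
    exact_mod_cast this
  refine exponent_of (T := fun n L => CubeLike ℝ n (m n) a b L) hc hK0 (n₀ := max n₀ n₁)
    (B := 8) ?_ ?_
  · intro n L hn h
    have := hlow ℝ n (m n) a b L ((le_max_left _ _).trans hn) h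
      (hn₁ n ((le_max_right _ _).trans hn))
    rwa [Nat.cast_mul] at this
  · intro n
    obtain ⟨f, g, W, H⟩ := real_alg (hasRank_rk n)
    refine ⟨_, cube_of_alg ha hb (hm n) f g W H, ?_⟩
    rw [Fintype.card_prod, Fintype.card_fin, Fintype.card_fin]
    omega

end Pool.Agent.X214.OM
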