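import Pool.Agent.X214.OM.Exa
import Pool.Agent.X214.LG.Upper

/-!
# Functions of one matrix: classes, examples, exponents
-/

set_option autoImplicit false
set_option linter.unusedSectionVars false

namespace Pool.Agent.X214.OM

open Topology Filter Module Pool.Agent.H515R2.MMR Pool.Agent.H53R3
open Pool.Agent.X214.LG (eN real_alg bl bl_apply Blk card_blk bl_mul_bl)

section examples

variable {𝕜 : Type} [RCLike 𝕜] {n m a b L : ℕ}

theorem inverse_squareLike {A₀ : Matrix (Fin n) (Fin n) 𝕜} (hA : IsUnit A₀)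
    {M : (Fin m → 𝕜) →ₗ[𝕜] Matrix (Fin n) (Fin n) 𝕜} (hM : Function.Injective M)
    (hc : Computes 2 a b L (fun (p : Fin n × Fin n) x => ((A₀ + M x)⁻¹) p.1 p.2)) :
    SquareLike 𝕜 n m a b L := by
  obtain ⟨u, rfl⟩ := hA
  set ui : Matrix (Fin n) (Fin n) 𝕜 := ((u⁻¹ : (Matrix (Fin n) (Fin n) 𝕜)ˣ) :
    Matrix (Fin n) (Fin n) 𝕜) with hui
  have hu1 : (u : Matrix (Fin n) (Fin n) 𝕜) * ui = 1 := by simp [hui]
  have hu2 : ui * (u : Matrix (Fin n) (Fin n) 𝕜) = 1 := by simp [hui]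
  refine ⟨(LinearMap.mulLeft 𝕜 ui).comp M, (2 : 𝕜) • 1, ui,
    fun p x => ((u + M x)⁻¹) p.1 p.2, ?_, ?_, (u⁻¹).isUnit, hc, ?_⟩
  · intro x y hxy
    refine hM ?_
    have h1 : ui * M x = ui * M y := hxy
    have h2 := congrArg (fun A => (u : Matrix (Fin n) (Fin n) 𝕜) * A) h1
    simpa [← mul_assoc, hu1] using h2
  · have : (2 : 𝕜) • (1 : Matrix (Fin n) (Fin n) 𝕜) = (Units.mk0 (2 : 𝕜) (by norm_num)) •
      (1 : Matrix (Fin n) (Fin n) 𝕜) := rfl
    rw [this]
    exact isUnit_one.smul _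
  · intro x i j
    have e : (fun t : 𝕜 => ((u + M (t • x))⁻¹) i j) = fun t => (NN (ui * M x) t * ui) i j := by
      funext t
      have h1 : (u : Matrix (Fin n) (Fin n) 𝕜) + M (t • x) =
          u * (1 + t • (ui * M x)) := by
        rw [mul_add, mul_one, map_smul, Matrix.mul_smul, ← mul_assoc, hu1, one_mul]
      rw [h1, Matrix.mul_inv_rev]
      have h2 : (u : Matrix (Fin n) (Fin n) 𝕜)⁻¹ = ui := by
        rw [hui]; exact (Matrix.coe_units_inv u).symm
      rw [h2, Matrix.nonsing_inv_eq_ringInverse]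
      rfl
    show iteratedDeriv 2 (fun t : 𝕜 => ((u + M (t • x))⁻¹) i j) 0 =
      ((2 : 𝕜) • 1 * ((ui * M x) * (ui * M x)) * ui) i j
    rw [e, inv_second]
    simp only [Matrix.smul_mul, one_mul]

theorem det_cubeLike {A₀ : Matrix (Fin n) (Fin n) 𝕜} (hA : IsUnit A₀)
    {M : (Fin m → 𝕜) →ₗ[𝕜] Matrix (Fin n) (Fin n) 𝕜} (hM : Function.Injective M)
    (hc : Computes 3 a b L (fun (_ : Unit) x => (A₀ + M x).det)) :
    CubeLike 𝕜 n m a b L := by
  have hdet : A₀.det ≠ 0 := by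
    rw [Matrix.isUnit_iff_isUnit_det] at hA
    exact hA.ne_zero
  obtain ⟨u, rfl⟩ := hA
  set ui : Matrix (Fin n) (Fin n) 𝕜 := ((u⁻¹ : (Matrix (Fin n) (Fin n) 𝕜)ˣ) :
    Matrix (Fin n) (Fin n) 𝕜) with hui
  have hu1 : (u : Matrix (Fin n) (Fin n) 𝕜) * ui = 1 := by simp [hui]
  refine ⟨(LinearMap.mulLeft 𝕜 ui).comp M, (u : Matrix (Fin n) (Fin n) 𝕜).det * 2,
    fun x => (u + M x).det, ?_, mul_ne_zero hdet (by norm_num), hc, ?_⟩
  · intro x y hxy
    refine hM ?_
    have h1 : ui * M x = ui * M y := hxy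
    have h2 := congrArg (fun A => (u : Matrix (Fin n) (Fin n) 𝕜) * A) h1
    simpa [← mul_assoc, hu1] using h2
  · intro x hx
    have hx' : (ui * M x).trace = 0 := hx
    have e : (fun t : 𝕜 => (u + M (t • x)).det) =
        fun t => (u : Matrix (Fin n) (Fin n) 𝕜).det * (1 + t • (ui * M x)).det := by
      funext t
      rw [← Matrix.det_mul]
      congr 1
      rw [mul_add, mul_one, map_smul, Matrix.mul_smul, ← mul_assoc, hu1, one_mul]
    show iteratedDeriv 3 (fun t : 𝕜 => (u + M (t • x)).det) 0 =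
      (u : Matrix (Fin n) (Fin n) 𝕜).det * 2 * ((ui * M x) * (ui * M x) * (ui * M x)).trace
    rw [e, iteratedDeriv_const_mul_field, det_third _ hx']
    ring

section poly

attribute [local instance] Matrix.linftyOpNormedAddCommGroup Matrix.linftyOpNormedRing
  Matrix.linftyOpNormedAlgebra

lemma poly_deriv (p : Polynomial 𝕜) (c : 𝕜) (K : Matrix (Fin n) (Fin n) 𝕜) (t : 𝕜) :
    HasDerivAt (fun t : 𝕜 => Polynomial.aeval (c • 1 + t • K) p)
      (Polynomial.aeval (c • 1 + t • K) p.derivative * K) t := by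
  have hA : HasDerivAt (fun t : 𝕜 => c • (1 : Matrix (Fin n) (Fin n) 𝕜) + t • K) K t := by
    have h1 : HasDerivAt (fun t : 𝕜 => t • K) K t := by
      have := (hasDerivAt_id t).smul_const K
      rw [one_smul] at this
      exact this
    exact h1.const_add _
  have hcomm : Commute (c • (1 : Matrix (Fin n) (Fin n) 𝕜) + t • K) K := by
    refine Commute.add_left ?_ ?_
    · exact (Commute.one_left K).smul_left c
    · exact (Commute.refl K).smul_left t
  have hpow : ∀ k : ℕ, HasDerivAt (fun t : 𝕜 => (c • (1 : Matrix (Fin n) (Fin n) 𝕜) + t • K) ^ k)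
      ((k : 𝕜) • ((c • (1 : Matrix (Fin n) (Fin n) 𝕜) + t • K) ^ (k - 1) * K)) t := by
    intro k
    induction k with
    | zero =>
      simp only [pow_zero, Nat.cast_zero, zero_smul]
      exact hasDerivAt_const t _
    | succ k ih =>
      have h1 := ih.mul hA
      have e1 : ((k : 𝕜) • ((c • (1 : Matrix (Fin n) (Fin n) 𝕜) + t • K) ^ (k - 1) * K)) *
          (c • (1 : Matrix (Fin n) (Fin n) 𝕜) + t • K) +
          (c • (1 : Matrix (Fin n) (Fin n) 𝕜) + t • K) ^ k * K =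
          ((k + 1 : ℕ) : 𝕜) • ((c • (1 : Matrix (Fin n) (Fin n) 𝕜) + t • K) ^ (k + 1 - 1) * K) := by
        rw [Nat.add_sub_cancel, Matrix.smul_mul, mul_assoc, ← hcomm.eq, ← mul_assoc]
        rcases Nat.eq_zero_or_pos k with h0 | h0
        · subst h0
          simp
        · rw [← pow_succ, Nat.sub_add_cancel h0]
          push_cast
          rw [add_smul, one_smul]
      have e2 : (fun t : 𝕜 => (c • (1 : Matrix (Fin n) (Fin n) 𝕜) + t • K) ^ (k + 1)) =
          fun t : 𝕜 => (c • (1 : Matrix (Fin n) (Fin n) 𝕜) + t • K) ^ k *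
            (c • (1 : Matrix (Fin n) (Fin n) 𝕜) + t • K) := by
        funext t
        rw [pow_succ]
      rw [← e1, e2]
      exact h1
  induction p using Polynomial.induction_on' with
  | add p q hp hq =>
    simp only [map_add, add_mul]
    exact hp.add hq
  | monomial k r =>
    simp only [Polynomial.aeval_monomial, Polynomial.derivative_monomial]
    have h1 := (hpow k).const_smul r
    have e2 : (algebraMap 𝕜 (Matrix (Fin n) (Fin n) 𝕜)) (r * (k : 𝕜)) *
        (c • (1 : Matrix (Fin n) (Fin n) 𝕜) + t • K) ^ (k - 1) * K =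
        r • ((k : 𝕜) • ((c • (1 : Matrix (Fin n) (Fin n) 𝕜) + t • K) ^ (k - 1) * K)) := by
      rw [Algebra.algebraMap_eq_smul_one, smul_mul_assoc, one_mul, smul_mul_assoc, mul_smul]
    rw [e2]
    have e3 : (fun t : 𝕜 => (algebraMap 𝕜 (Matrix (Fin n) (Fin n) 𝕜)) r *
        (c • (1 : Matrix (Fin n) (Fin n) 𝕜) + t • K) ^ k) =
        fun t : 𝕜 => r • (c • (1 : Matrix (Fin n) (Fin n) 𝕜) + t • K) ^ k := by
      funext t
      rw [Algebra.algebraMap_eq_smul_one, smul_mul_assoc, one_mul]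
    rw [e3]
    exact h1

lemma poly_deriv' (p : Polynomial 𝕜) (c : 𝕜) (K X : Matrix (Fin n) (Fin n) 𝕜)
    (ℓ : Matrix (Fin n) (Fin n) 𝕜 →ₗ[𝕜] 𝕜) :
    deriv (fun t : 𝕜 => ℓ (Polynomial.aeval (c • 1 + t • K) p * X)) =
      fun t => ℓ (Polynomial.aeval (c • 1 + t • K) p.derivative * (K * X)) := by
  funext t
  have h1 := fun_deriv ℓ ((poly_deriv p c K t).mul_const X)
  rw [mul_assoc] at h1
  exact h1.deriv

end poly

lemma aeval_smul_one (p : Polynomial 𝕜) (c : 𝕜) :
    Polynomial.aeval (c • (1 : Matrix (Fin n) (Fin n) 𝕜)) p = p.eval c • 1 := by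
  have h : c • (1 : Matrix (Fin n) (Fin n) 𝕜) = algebraMap 𝕜 _ c :=
    (Algebra.algebraMap_eq_smul_one c).symm
  rw [h, Polynomial.aeval_algebraMap_apply, Algebra.algebraMap_eq_smul_one]
  rfl

/-- Polynomial functions of a matrix. -/
theorem poly_squareLike {p : Polynomial 𝕜} {c : 𝕜} (hp : p.derivative.derivative.eval c ≠ 0)
    {M : (Fin m → 𝕜) →ₗ[𝕜] Matrix (Fin n) (Fin n) 𝕜} (hM : Function.Injective M)
    (hc : Computes 2 a b L (fun (ij : Fin n × Fin n) x =>
      (Polynomial.aeval (c • 1 + M x) p) ij.1 ij.2)) : SquareLike 𝕜 n m a b L := by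
  refine ⟨M, (p.derivative.derivative.eval c) • 1, 1, _, hM, ?_, isUnit_one, hc, ?_⟩
  · have : (p.derivative.derivative.eval c) • (1 : Matrix (Fin n) (Fin n) 𝕜) =
      (Units.mk0 _ hp) • (1 : Matrix (Fin n) (Fin n) 𝕜) := rfl
    rw [this]
    exact isUnit_one.smul _
  · intro x i j
    have e : (fun t : 𝕜 => (Polynomial.aeval (c • (1 : Matrix (Fin n) (Fin n) 𝕜) + M (t • x)) p)
        i j) = fun t => ent i j (Polynomial.aeval (c • 1 + t • M x) p * 1) := by
      funext t
      rw [map_smul, mul_one]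
      rfl
    show iteratedDeriv 2 (fun t : 𝕜 => (Polynomial.aeval (c • 1 + M (t • x)) p) i j) 0 =
      ((((p.derivative.derivative.eval c) • (1 : Matrix (Fin n) (Fin n) 𝕜)) * (M x * M x) *
        (1 : Matrix (Fin n) (Fin n) 𝕜) : Matrix (Fin n) (Fin n) 𝕜)) i j
    rw [e, iteratedDeriv_succ, iteratedDeriv_one, poly_deriv', poly_deriv']
    beta_reduce
    rw [zero_smul, add_zero, aeval_smul_one, mul_one]
    simp only [Matrix.smul_mul, one_mul, mul_one, map_smul]
    rfl

theorem poly_cubeLike {p : Polynomial 𝕜} {c : 𝕜}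
    (hp : p.derivative.derivative.derivative.eval c ≠ 0)
    {M : (Fin m → 𝕜) →ₗ[𝕜] Matrix (Fin n) (Fin n) 𝕜} (hM : Function.Injective M)
    (hc : Computes 3 a b L (fun (_ : Unit) x => (Polynomial.aeval (c • 1 + M x) p).trace)) :
    CubeLike 𝕜 n m a b L := by
  refine ⟨M, p.derivative.derivative.derivative.eval c, _, hM, hp, hc, ?_⟩
  intro x _
  have e : (fun t : 𝕜 => (Polynomial.aeval (c • (1 : Matrix (Fin n) (Fin n) 𝕜) +
      M (t • x)) p).trace) = fun t => Matrix.traceLinearMap (Fin n) 𝕜 𝕜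
        (Polynomial.aeval (c • 1 + t • M x) p * 1) := by
    funext t
    rw [map_smul, mul_one]
    rfl
  show iteratedDeriv 3 (fun t : 𝕜 => (Polynomial.aeval (c • (1 : Matrix (Fin n) (Fin n) 𝕜) +
      M (t • x)) p).trace) 0 = p.derivative.derivative.derivative.eval c *
        (M x * M x * M x).trace
  rw [e, iteratedDeriv_succ, iteratedDeriv_succ, iteratedDeriv_one, poly_deriv', poly_deriv',
    poly_deriv']
  beta_reduce
  rw [zero_smul, add_zero, aeval_smul_one, mul_one]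
  simp only [Matrix.smul_mul, one_mul, map_smul, smul_eq_mul, Matrix.traceLinearMap_apply,
    mul_assoc]

end examples

end Pool.Agent.X214.OM
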