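import Pool.Agent.X214.LG.Bracket

/-!
# Third derivatives of compositions
-/

set_option autoImplicit false
set_option linter.unusedSectionVars false

namespace Pool.Agent.X214.OM

open Topology Filter Pool.Agent.Y538.Net Pool.Agent.X214.LG

variable {𝕜 : Type} [RCLike 𝕜] {E : Type} [NormedAddCommGroup E] [NormedSpace 𝕜 E]

/-- Third derivative. -/
noncomputable def D3 (f : E → 𝕜) (x h k l : E) : 𝕜 := fderiv 𝕜 (fun y => H2 f y h k) x l

lemma ev2 {f : E → 𝕜} {x : E} (h : ContDiffAt 𝕜 3 f x) : ∀ᶠ y in 𝓝 x, ContDiffAt 𝕜 2 f y := by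
  filter_upwards [h.eventually (by simp)] with y hy
  exact hy.of_le (by norm_num)

lemma diff3 {f : E → 𝕜} {x : E} (h : ContDiffAt 𝕜 3 f x) : DifferentiableAt 𝕜 (H2 f) x := by
  have h1 : ContDiffAt 𝕜 2 (fderiv 𝕜 f) x := h.fderiv_right (by norm_num)
  have h2 : ContDiffAt 𝕜 1 (fderiv 𝕜 (fderiv 𝕜 f)) x := h1.fderiv_right (by norm_num)
  exact h2.differentiableAt (by norm_num)

lemma diff3' {f : E → 𝕜} {x : E} (h : ContDiffAt 𝕜 3 f x) (a b : E) :
    DifferentiableAt 𝕜 (fun y => H2 f y a b) x :=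
  ((diff3 h).clm_apply (differentiableAt_const _)).clm_apply (differentiableAt_const _)

lemma le23 {f : E → 𝕜} {x : E} (h : ContDiffAt 𝕜 3 f x) : ContDiffAt 𝕜 2 f x :=
  h.of_le (by norm_num)

lemma D3_congr {f g : E → 𝕜} {x : E} (h : f =ᶠ[𝓝 x] g) (a b c : E) :
    D3 f x a b c = D3 g x a b c := by
  unfold D3
  have h1 : (fun y => H2 f y a b) =ᶠ[𝓝 x] fun y => H2 g y a b := by
    filter_upwards [h.eventuallyEq_nhds] with y hy
    rw [H2_congr hy]
  rw [h1.fderiv_eq]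

lemma D3_add {f g : E → 𝕜} {x : E} (hf : ContDiffAt 𝕜 3 f x) (hg : ContDiffAt 𝕜 3 g x)
    (a b c : E) : D3 (f + g) x a b c = D3 f x a b c + D3 g x a b c := by
  unfold D3
  have h1 : (fun y => H2 (f + g) y a b) =ᶠ[𝓝 x] (fun y => H2 f y a b) + fun y => H2 g y a b := by
    filter_upwards [ev2 hf, ev2 hg] with y h1 h2
    rw [H2_add h1 h2]; rfl
  rw [h1.fderiv_eq, fderiv_add (diff3' hf a b) (diff3' hg a b)]
  rfl

lemma D3_smul {f : E → 𝕜} {x : E} (r : 𝕜) (hf : ContDiffAt 𝕜 3 f x) (a b c : E) :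
    D3 (r • f) x a b c = r * D3 f x a b c := by
  unfold D3
  have h1 : (fun y => H2 (r • f) y a b) =ᶠ[𝓝 x] r • (fun y => H2 f y a b) := by
    filter_upwards [ev2 hf] with y h1
    rw [H2_smul r h1]; rfl
  rw [h1.fderiv_eq, fderiv_const_smul (diff3' hf a b)]
  rfl

lemma D3_affine (ℓ : E →L[𝕜] 𝕜) (c : 𝕜) (x u v w : E) : D3 (fun x => ℓ x + c) x u v w = 0 := by
  unfold D3
  have h1 : (fun y => H2 (fun x => ℓ x + c) y u v) = fun _ => 0 := by
    funext y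
    rw [H2_affine]
    rfl
  rw [h1]
  simp

/-- first partial derivatives -/
noncomputable def p1 {a : ℕ} (φ : (Fin a → 𝕜) → 𝕜) (i : Fin a) (y : Fin a → 𝕜) : 𝕜 :=
  fderiv 𝕜 φ y (Pi.single i 1)

lemma fderiv_pi_expand {a : ℕ} {φ : (Fin a → 𝕜) → 𝕜} {u : Fin a → E → 𝕜} {x : E}
    (hu : ∀ i, DifferentiableAt 𝕜 (u i) x) (hφ : DifferentiableAt 𝕜 φ (fun i => u i x)) (h : E) :
    fderiv 𝕜 (fun y => φ (fun i => u i y)) x h =
      ∑ i, p1 φ i (fun i => u i x) * fderiv 𝕜 (u i) x h := by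
  classical
  have g3 : HasFDerivAt (fun y i => u i y) (ContinuousLinearMap.pi fun i => fderiv 𝕜 (u i) x) x :=
    hasFDerivAt_pi.mpr fun i => (hu i).hasFDerivAt
  have g4 : HasFDerivAt (fun y => φ (fun i => u i y)) _ x := hφ.hasFDerivAt.comp x g3
  rw [g4.fderiv, ContinuousLinearMap.comp_apply]
  have g6 : (ContinuousLinearMap.pi fun i => fderiv 𝕜 (u i) x) h =
      ∑ i, (fderiv 𝕜 (u i) x h) • (Pi.single i (1 : 𝕜) : Fin a → 𝕜) := by
    funext j
    rw [Finset.sum_apply]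
    simp [Pi.single_apply]
  rw [g6, map_sum]
  refine Finset.sum_congr rfl fun i _ => ?_
  rw [map_smul, smul_eq_mul, mul_comm]
  rfl

lemma p1_contDiff {a : ℕ} {φ : (Fin a → 𝕜) → 𝕜} {z : Fin a → 𝕜} {k k' : WithTop ℕ∞}
    (hk : k' + 1 ≤ k) (h : ContDiffAt 𝕜 k φ z) (i : Fin a) : ContDiffAt 𝕜 k' (p1 φ i) z :=
  (h.fderiv_right hk).clm_apply contDiffAt_const

lemma diff_comp {a : ℕ} {ψ : (Fin a → 𝕜) → 𝕜} {u : Fin a → E → 𝕜} {x : E}
    (hu : ∀ i, DifferentiableAt 𝕜 (u i) x) (hψ : ContDiffAt 𝕜 1 ψ (fun i => u i x)) :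
    DifferentiableAt 𝕜 (fun y => ψ (fun i => u i y)) x := by
  have h1 : DifferentiableAt 𝕜 (fun y i => u i y) x := differentiableAt_pi.mpr hu
  exact (hψ.differentiableAt (by norm_num)).comp x h1

/-- Second derivative of a composition, explicit coefficients. -/
lemma H2_comp_explicit {a : ℕ} {φ : (Fin a → 𝕜) → 𝕜} {u : Fin a → E → 𝕜} {x : E}
    (hu : ∀ i, ContDiffAt 𝕜 2 (u i) x) (hφ : ContDiffAt 𝕜 2 φ (fun i => u i x)) (h1 h2 : E) :
    H2 (fun y => φ (fun i => u i y)) x h1 h2 =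
      ∑ i, p1 φ i (fun i => u i x) * H2 (u i) x h1 h2 +
        ∑ i, ∑ j, p1 (p1 φ i) j (fun i => u i x) * (fderiv 𝕜 (u j) x h1 * fderiv 𝕜 (u i) x h2) := by
  classical
  have hUc : ContDiffAt 𝕜 2 (fun y i => u i y) x := contDiffAt_pi.mpr hu
  have hc : ContDiffAt 𝕜 2 (fun y => φ (fun i => u i y)) x := hφ.comp x hUc
  rw [H2_eval hc]
  have e1 : (fun y => fderiv 𝕜 (fun y => φ (fun i => u i y)) y h2) =ᶠ[𝓝 x]
      fun y => ∑ i, p1 φ i (fun i => u i y) * fderiv 𝕜 (u i) y h2 := by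
    have b1 : ∀ᶠ y in 𝓝 x, DifferentiableAt 𝕜 φ (fun i => u i y) :=
      hUc.continuousAt.eventually (ev1 hφ)
    have b2 : ∀ᶠ y in 𝓝 x, ∀ i, DifferentiableAt 𝕜 (u i) y :=
      eventually_all.mpr fun i => ev1 (hu i)
    filter_upwards [b1, b2] with y c1 c2
    exact fderiv_pi_expand c2 c1 h2
  rw [e1.fderiv_eq]
  have d1 : ∀ i, DifferentiableAt 𝕜 (fun y => p1 φ i (fun i => u i y)) x := fun i =>
    diff_comp (fun i => diff1 (hu i)) (p1_contDiff (k := 2) (k' := 1) (by norm_num) hφ i)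
  have d2 : ∀ i, DifferentiableAt 𝕜 (fun y => fderiv 𝕜 (u i) y h2) x := fun i =>
    (diff2 (hu i)).clm_apply (differentiableAt_const _)
  have hd : HasFDerivAt (fun y => ∑ i, p1 φ i (fun i => u i y) * fderiv 𝕜 (u i) y h2)
      (∑ i, (p1 φ i (fun i => u i x) • fderiv 𝕜 (fun y => fderiv 𝕜 (u i) y h2) x +
        fderiv 𝕜 (u i) x h2 • fderiv 𝕜 (fun y => p1 φ i (fun i => u i y)) x)) x :=
    HasFDerivAt.fun_sum fun i _ => (d1 i).hasFDerivAt.mul (d2 i).hasFDerivAt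
  rw [hd.fderiv]
  simp only [_root_.sum_apply, _root_.add_apply, _root_.smul_apply, smul_eq_mul]
  rw [Finset.sum_add_distrib]
  congr 1
  · refine Finset.sum_congr rfl fun i _ => ?_
    rw [H2_eval (hu i)]
  · refine Finset.sum_congr rfl fun i _ => ?_
    have d3 : DifferentiableAt 𝕜 (p1 φ i) (fun i => u i x) :=
      (p1_contDiff (k := 2) (k' := 1) (by norm_num) hφ i).differentiableAt (by norm_num)
    rw [fderiv_pi_expand (fun i => diff1 (hu i)) d3, Finset.mul_sum]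
    refine Finset.sum_congr rfl fun j _ => ?_
    ring

/-- Third derivative of a composition. -/
lemma D3_comp {a : ℕ} {φ : (Fin a → 𝕜) → 𝕜} {u : Fin a → E → 𝕜} {x : E}
    (hu : ∀ i, ContDiffAt 𝕜 3 (u i) x) (hφ : ContDiffAt 𝕜 3 φ (fun i => u i x)) (h k l : E) :
    D3 (fun y => φ (fun i => u i y)) x h k l =
      ∑ i, p1 φ i (fun i => u i x) * D3 (u i) x h k l +
      ∑ i, ∑ j, p1 (p1 φ i) j (fun i => u i x) * (fderiv 𝕜 (u j) x l * H2 (u i) x h k +
        H2 (u j) x l h * fderiv 𝕜 (u i) x k + fderiv 𝕜 (u j) x h * H2 (u i) x l k) +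
      ∑ i, ∑ j, ∑ r, p1 (p1 (p1 φ i) j) r (fun i => u i x) *
        (fderiv 𝕜 (u r) x l * (fderiv 𝕜 (u j) x h * fderiv 𝕜 (u i) x k)) := by
  classical
  have hUc : ContDiffAt 𝕜 3 (fun y i => u i y) x := contDiffAt_pi.mpr hu
  have e1 : (fun y => H2 (fun y => φ (fun i => u i y)) y h k) =ᶠ[𝓝 x]
      fun y => ∑ i, p1 φ i (fun i => u i y) * H2 (u i) y h k +
        ∑ i, ∑ j, p1 (p1 φ i) j (fun i => u i y) *
          (fderiv 𝕜 (u j) y h * fderiv 𝕜 (u i) y k) := by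
    have b1 : ∀ᶠ y in 𝓝 x, ContDiffAt 𝕜 2 φ (fun i => u i y) :=
      hUc.continuousAt.eventually (ev2 hφ)
    have b2 : ∀ᶠ y in 𝓝 x, ∀ i, ContDiffAt 𝕜 2 (u i) y :=
      eventually_all.mpr fun i => ev2 (hu i)
    filter_upwards [b1, b2] with y c1 c2
    exact H2_comp_explicit c2 c1 h k
  have d1 : ∀ i, DifferentiableAt 𝕜 (fun y => p1 φ i (fun i => u i y)) x := fun i =>
    diff_comp (fun i => diff1 (le23 (hu i)))
      (p1_contDiff (k := 2) (k' := 1) (by norm_num) (hφ.of_le (by norm_num)) i)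
  have d11 : ∀ i j, DifferentiableAt 𝕜 (fun y => p1 (p1 φ i) j (fun i => u i y)) x := fun i j =>
    diff_comp (fun i => diff1 (le23 (hu i))) (p1_contDiff (k := 2) (k' := 1) (by norm_num)
      (p1_contDiff (k := 3) (k' := 2) (by norm_num) hφ i) j)
  have d2 : ∀ i (v : E), DifferentiableAt 𝕜 (fun y => fderiv 𝕜 (u i) y v) x := fun i v =>
    (diff2 (le23 (hu i))).clm_apply (differentiableAt_const _)
  have hd : HasFDerivAt (fun y => ∑ i, p1 φ i (fun i => u i y) * H2 (u i) y h k +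
        ∑ i, ∑ j, p1 (p1 φ i) j (fun i => u i y) *
          (fderiv 𝕜 (u j) y h * fderiv 𝕜 (u i) y k))
      (∑ i, (p1 φ i (fun i => u i x) • fderiv 𝕜 (fun y => H2 (u i) y h k) x +
        H2 (u i) x h k • fderiv 𝕜 (fun y => p1 φ i (fun i => u i y)) x) +
       ∑ i, ∑ j, (p1 (p1 φ i) j (fun i => u i x) •
          (fderiv 𝕜 (u j) x h • fderiv 𝕜 (fun y => fderiv 𝕜 (u i) y k) x +
            fderiv 𝕜 (u i) x k • fderiv 𝕜 (fun y => fderiv 𝕜 (u j) y h) x) +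
          (fderiv 𝕜 (u j) x h * fderiv 𝕜 (u i) x k) •
            fderiv 𝕜 (fun y => p1 (p1 φ i) j (fun i => u i y)) x)) x := by
    refine HasFDerivAt.add ?_ ?_
    · exact HasFDerivAt.fun_sum fun i _ =>
        (d1 i).hasFDerivAt.mul (diff3' (hu i) h k).hasFDerivAt
    · exact HasFDerivAt.fun_sum fun i _ => HasFDerivAt.fun_sum fun j _ =>
        (d11 i j).hasFDerivAt.mul ((d2 j h).hasFDerivAt.mul (d2 i k).hasFDerivAt)
  have e0 : D3 (fun y => φ (fun i => u i y)) x h k l =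
    fderiv 𝕜 (fun y => H2 (fun y => φ (fun i => u i y)) y h k) x l := rfl
  rw [e0, e1.fderiv_eq, hd.fderiv]
  simp only [_root_.sum_apply, _root_.add_apply, _root_.smul_apply, smul_eq_mul]
  have e2 : ∀ i, fderiv 𝕜 (fun y => p1 φ i (fun i => u i y)) x l =
      ∑ j, p1 (p1 φ i) j (fun i => u i x) * fderiv 𝕜 (u j) x l := by
    intro i
    have d3 : DifferentiableAt 𝕜 (p1 φ i) (fun i => u i x) :=
      (p1_contDiff (k := 3) (k' := 2) (by norm_num) hφ i).differentiableAt (by norm_num)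
    exact fderiv_pi_expand (fun i => diff1 (le23 (hu i))) d3 l
  have e3 : ∀ i j, fderiv 𝕜 (fun y => p1 (p1 φ i) j (fun i => u i y)) x l =
      ∑ r, p1 (p1 (p1 φ i) j) r (fun i => u i x) * fderiv 𝕜 (u r) x l := by
    intro i j
    have d3 : DifferentiableAt 𝕜 (p1 (p1 φ i) j) (fun i => u i x) :=
      (p1_contDiff (k := 2) (k' := 1) (by norm_num)
        (p1_contDiff (k := 3) (k' := 2) (by norm_num) hφ i) j).differentiableAt (by norm_num)
    exact fderiv_pi_expand (fun i => diff1 (le23 (hu i))) d3 l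
  have e4 : ∀ i (v : E), fderiv 𝕜 (fun y => fderiv 𝕜 (u i) y v) x l = H2 (u i) x l v := fun i v =>
    (H2_eval (le23 (hu i)) l v).symm
  simp only [e2, e3, e4]
  have e5 : ∀ i, fderiv 𝕜 (fun y => H2 (u i) y h k) x l = D3 (u i) x h k l := fun i => rfl
  simp only [e5, Finset.sum_add_distrib, Finset.mul_sum, mul_add]
  have s1 : ∑ i, ∑ j, H2 (u i) x h k * (p1 (p1 φ i) j (fun i => u i x) * fderiv 𝕜 (u j) x l) =
      ∑ i, ∑ j, p1 (p1 φ i) j (fun i => u i x) * (fderiv 𝕜 (u j) x l * H2 (u i) x h k) :=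
    Finset.sum_congr rfl fun i _ => Finset.sum_congr rfl fun j _ => by ring
  have s2 : ∑ i, ∑ j, p1 (p1 φ i) j (fun i => u i x) * (fderiv 𝕜 (u i) x k * H2 (u j) x l h) =
      ∑ i, ∑ j, p1 (p1 φ i) j (fun i => u i x) * (H2 (u j) x l h * fderiv 𝕜 (u i) x k) :=
    Finset.sum_congr rfl fun i _ => Finset.sum_congr rfl fun j _ => by ring
  have s3 : ∑ i, ∑ j, ∑ r, fderiv 𝕜 (u j) x h * fderiv 𝕜 (u i) x k *
        (p1 (p1 (p1 φ i) j) r (fun i => u i x) * fderiv 𝕜 (u r) x l) =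
      ∑ i, ∑ j, ∑ r, p1 (p1 (p1 φ i) j) r (fun i => u i x) *
        (fderiv 𝕜 (u r) x l * (fderiv 𝕜 (u j) x h * fderiv 𝕜 (u i) x k)) :=
    Finset.sum_congr rfl fun i _ => Finset.sum_congr rfl fun j _ =>
      Finset.sum_congr rfl fun r _ => by ring
  rw [s1, s2, s3]
  ring

/-- Symmetries of the third derivative. -/
lemma D3_symm12 {f : E → 𝕜} {x : E} (hf : ContDiffAt 𝕜 3 f x) (h k l : E) :
    D3 f x h k l = D3 f x k h l := by
  unfold D3
  have h1 : (fun y => H2 f y h k) =ᶠ[𝓝 x] fun y => H2 f y k h := by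
    filter_upwards [ev2 hf] with y hy
    exact H2_symm hy h k
  rw [h1.fderiv_eq]

lemma D3_symm13 {f : E → 𝕜} {x : E} (hf : ContDiffAt 𝕜 3 f x) (h k l : E) :
    D3 f x h k l = D3 f x l k h := by
  have hg : ContDiffAt 𝕜 2 (fun z => fderiv 𝕜 f z k) x :=
    (hf.fderiv_right (m := 2) (by norm_num)).clm_apply contDiffAt_const
  have key : ∀ h l : E, D3 f x h k l = H2 (fun z => fderiv 𝕜 f z k) x l h := by
    intro h l
    rw [H2_eval hg]
    unfold D3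
    have h1 : (fun y => H2 f y h k) =ᶠ[𝓝 x] fun y => fderiv 𝕜 (fun z => fderiv 𝕜 f z k) y h := by
      filter_upwards [ev2 hf] with y hy
      exact H2_eval hy h k
    rw [h1.fderiv_eq]
  rw [key h l, key l h]
  exact H2_symm hg l h

end Pool.Agent.X214.OM
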