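import Pool.Agent.X214.OM.Defs
import Pool.Agent.X214.OM.Third

/-!
# The second and third derivatives of the functions computed by a network
-/

set_option autoImplicit false
set_option linter.unusedSectionVars false

namespace Pool.Agent.X214.OM

open Topology Filter Pool.Agent.Y538.Net Pool.Agent.X214.LG

variable {𝕜 : Type} [RCLike 𝕜] {m a b L : ℕ}

lemma avail_ind {g : ℕ → Fin b → (Fin m → 𝕜) → 𝕜} {l : ℕ} {P : ((Fin m → 𝕜) → 𝕜) → Prop}
    (h1 : ∀ (ℓ : (Fin m → 𝕜) →L[𝕜] 𝕜) (c : 𝕜), P (fun x => ℓ x + c))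
    (hg : ∀ s < l, ∀ o, P (g s o)) (hadd : ∀ f f', f ∈ Avail g l → f' ∈ Avail g l → P f → P f' →
      P (f + f')) (hsmul : ∀ (c : 𝕜) f, f ∈ Avail g l → P f → P (c • f)) :
    ∀ f ∈ Avail g l, P f := by
  intro f hf
  unfold Avail at hf
  induction hf using Submodule.span_induction with
  | mem f hf =>
    rcases hf with rfl | ⟨i, rfl⟩ | ⟨s, hs, o, rfl⟩
    · have := h1 0 1
      simpa using this
    · have := h1 (ContinuousLinearMap.proj (R := 𝕜) (φ := fun _ => 𝕜) i) 0
      simpa using this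
    · exact hg s hs o
  | zero =>
    have := h1 0 0
    have e : (fun x : Fin m → 𝕜 => (0 : (Fin m → 𝕜) →L[𝕜] 𝕜) x + 0) = 0 := by
      funext x; simp
    rw [e] at this
    exact this
  | add f f' hf hf' h h' => exact hadd f f' hf hf' h h'
  | smul c f hf h => exact hsmul c f hf h

lemma avail_contDiff {r : ℕ} {g : ℕ → Fin b → (Fin m → 𝕜) → 𝕜} {x : Fin m → 𝕜} {l : ℕ}
    (hg : ∀ s < l, ∀ o, ContDiffAt 𝕜 r (g s o) x) : ∀ f ∈ Avail g l, ContDiffAt 𝕜 r f x :=
  avail_ind (fun ℓ c => ℓ.contDiff.contDiffAt.add contDiffAt_const) hg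
    (fun _ _ _ _ h h' => h.add h') (fun c _ _ h => h.const_smul c)

lemma net_contDiff {r : ℕ} {D : Set (Fin m → 𝕜)} {g : ℕ → Fin b → (Fin m → 𝕜) → 𝕜}
    (hnet : IsNet r a b L D g) {x : Fin m → 𝕜} (hx : x ∈ D) :
    ∀ s < L, ∀ o, ContDiffAt 𝕜 r (g s o) x := by
  intro s
  induction s using Nat.strong_induction_on with
  | _ s ih =>
    intro hs o
    obtain ⟨u, φ, hu, hφ⟩ := hnet.2 s hs
    have h1 : ∀ i, ContDiffAt 𝕜 r (u i) x := fun i =>
      avail_contDiff (fun s' hs' o' => ih s' hs' (hs'.trans hs) o') _ (hu i)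
    have h2 : ContDiffAt 𝕜 r (fun y => φ (fun i => u i y) o) x := by
      have h3 : ContDiffAt 𝕜 r (fun y => (fun i => u i y)) x := contDiffAt_pi.mpr h1
      have h4 := (hφ x hx).1.comp x h3
      exact (contDiffAt_pi.mp h4) o
    refine h2.congr_of_eventuallyEq ?_
    filter_upwards [hnet.1.mem_nhds hx] with y hy
    exact (hφ y hy).2 o

/-- The quadratic terms contributed by the gates. -/
lemma net_second {D : Set (Fin m → 𝕜)} {g : ℕ → Fin b → (Fin m → 𝕜) → 𝕜}
    (hnet : IsNet 2 a b L D g) {x : Fin m → 𝕜} (hx : x ∈ D) :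
    ∃ (U : ℕ → Fin a → (Fin m → 𝕜) →ₗ[𝕜] 𝕜) (β : ℕ → Fin b → Fin a → Fin a → 𝕜),
      ∀ f ∈ Avail g L, ∃ C : ℕ → Fin b → 𝕜, ∀ h1 h2, H2 f x h1 h2 =
        ∑ s ∈ Finset.range L, ∑ o, C s o * ∑ i, ∑ j, β s o i j * (U s j h1 * U s i h2) := by
  classical
  have hle : ∀ l, Avail g l ≤ Aff g l := fun l => avail_ind
    (fun ℓ c => Submodule.subset_span (Or.inl ⟨ℓ, c, rfl⟩))
    (fun s hs o => Submodule.subset_span (Or.inr ⟨s, hs, o, rfl⟩))
    (fun f f' _ _ h h' => Submodule.add_mem _ h h') (fun c f _ h => Submodule.smul_mem _ c h)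
  have hnet' : Pool.Agent.Y538.Net.IsNet a b L D g := by
    refine ⟨hnet.1, fun l hl => ?_⟩
    obtain ⟨u, φ, hu, hφ⟩ := hnet.2 l hl
    exact ⟨u, φ, fun i => hle l (hu i), hφ⟩
  obtain ⟨U, β, hU, H⟩ := net_hess hnet' hx
  choose ℓ hℓ using hU
  refine ⟨fun s i => (ℓ s i).toLinearMap, β, fun f hf => ?_⟩
  obtain ⟨C, hC⟩ := H f (hle L hf)
  refine ⟨C, fun h1 h2 => ?_⟩
  rw [hC]
  simp only [hℓ]
  rfl

/-- The shape of the cubic terms contributed by the gates. -/
def Rep {E : Type} [AddCommGroup E] [Module 𝕜 E] (U : ℕ → Fin a → E →ₗ[𝕜] 𝕜) (l : ℕ)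
    (T : E → E → E → 𝕜) : Prop :=
  ∃ μ₁ μ₂ μ₃ : ℕ → Fin a → Fin a → (E →ₗ[𝕜] 𝕜), ∀ h k w, T h k w =
    ∑ s ∈ Finset.range l, ∑ i, ∑ j, (U s j h * U s i k * μ₁ s i j w +
      U s j h * U s i w * μ₂ s i j k + U s j k * U s i w * μ₃ s i j h)

section rep

variable {E : Type} [AddCommGroup E] [Module 𝕜 E] {U : ℕ → Fin a → E →ₗ[𝕜] 𝕜} {l : ℕ}

lemma Rep.zero : Rep U l (fun _ _ _ => (0 : 𝕜)) :=
  ⟨0, 0, 0, fun h k w => by simp⟩

lemma Rep.add {T T' : E → E → E → 𝕜} (h : Rep U l T) (h' : Rep U l T') :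
    Rep U l (fun x y z => T x y z + T' x y z) := by
  obtain ⟨μ₁, μ₂, μ₃, H⟩ := h
  obtain ⟨ν₁, ν₂, ν₃, H'⟩ := h'
  refine ⟨fun s i j => μ₁ s i j + ν₁ s i j, fun s i j => μ₂ s i j + ν₂ s i j,
    fun s i j => μ₃ s i j + ν₃ s i j, fun x y z => ?_⟩
  beta_reduce
  rw [H, H']
  simp only [← Finset.sum_add_distrib, LinearMap.add_apply]
  refine Finset.sum_congr rfl fun s _ => Finset.sum_congr rfl fun i _ =>
    Finset.sum_congr rfl fun j _ => ?_
  ring

lemma Rep.smul {T : E → E → E → 𝕜} (c : 𝕜) (h : Rep U l T) :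
    Rep U l (fun x y z => c * T x y z) := by
  obtain ⟨μ₁, μ₂, μ₃, H⟩ := h
  refine ⟨fun s i j => c • μ₁ s i j, fun s i j => c • μ₂ s i j, fun s i j => c • μ₃ s i j,
    fun x y z => ?_⟩
  beta_reduce
  rw [H]
  simp only [Finset.mul_sum, LinearMap.smul_apply, smul_eq_mul]
  refine Finset.sum_congr rfl fun s _ => Finset.sum_congr rfl fun i _ =>
    Finset.sum_congr rfl fun j _ => ?_
  ring

lemma Rep.sum {ι : Type} (S : Finset ι) {T : ι → E → E → E → 𝕜} (h : ∀ i ∈ S, Rep U l (T i)) :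
    Rep U l (fun x y z => ∑ i ∈ S, T i x y z) := by
  classical
  induction S using Finset.induction_on with
  | empty => simpa using Rep.zero
  | insert i S hi ih =>
    have h1 := (h i (Finset.mem_insert_self _ _)).add
      (ih fun j hj => h j (Finset.mem_insert_of_mem hj))
    simpa only [Finset.sum_insert hi] using h1

lemma Rep.congr {T T' : E → E → E → 𝕜} (h : Rep U l T) (e : ∀ x y z, T' x y z = T x y z) :
    Rep U l T' := by
  have : T' = T := by funext x y z; exact e x y z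
  rw [this]; exact h

/-- the same data with more gates -/
lemma Rep.mono {l' : ℕ} (hl : l ≤ l') {T : E → E → E → 𝕜} (h : Rep U l T) : Rep U l' T := by
  obtain ⟨μ₁, μ₂, μ₃, H⟩ := h
  refine ⟨fun s => if s < l then μ₁ s else 0, fun s => if s < l then μ₂ s else 0,
    fun s => if s < l then μ₃ s else 0, fun x y z => ?_⟩
  beta_reduce
  rw [H, ← Finset.sum_subset (Finset.range_mono hl)]
  · refine Finset.sum_congr rfl fun s hs => ?_
    simp only [Finset.mem_range.mp hs, if_true]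
  · intro s _ hs
    have : ¬ s < l := fun h => hs (Finset.mem_range.mpr h)
    simp [this]

/-- generators -/
lemma Rep.gen1 {s : ℕ} (hs : s < l) (i j : Fin a) (μ : E →ₗ[𝕜] 𝕜) :
    Rep U l (fun x y z => U s j x * U s i y * μ z) := by
  classical
  refine ⟨fun s' i' j' => if s' = s ∧ i' = i ∧ j' = j then μ else 0, 0, 0, fun x y z => ?_⟩
  rw [Finset.sum_eq_single s, Finset.sum_eq_single i, Finset.sum_eq_single j]
  · simp
  · intro j' _ hj'; simp [hj']
  · simp
  · intro i' _ hi'; simp [hi']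
  · simp
  · intro s' _ hs'; simp [hs']
  · intro h; exact absurd (Finset.mem_range.mpr hs) h

lemma Rep.gen2 {s : ℕ} (hs : s < l) (i j : Fin a) (μ : E →ₗ[𝕜] 𝕜) :
    Rep U l (fun x y z => U s j x * U s i z * μ y) := by
  classical
  refine ⟨0, fun s' i' j' => if s' = s ∧ i' = i ∧ j' = j then μ else 0, 0, fun x y z => ?_⟩
  rw [Finset.sum_eq_single s, Finset.sum_eq_single i, Finset.sum_eq_single j]
  · simp
  · intro j' _ hj'; simp [hj']
  · simp
  · intro i' _ hi'; simp [hi']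
  · simp
  · intro s' _ hs'; simp [hs']
  · intro h; exact absurd (Finset.mem_range.mpr hs) h

lemma Rep.gen3 {s : ℕ} (hs : s < l) (i j : Fin a) (μ : E →ₗ[𝕜] 𝕜) :
    Rep U l (fun x y z => U s j y * U s i z * μ x) := by
  classical
  refine ⟨0, 0, fun s' i' j' => if s' = s ∧ i' = i ∧ j' = j then μ else 0, fun x y z => ?_⟩
  rw [Finset.sum_eq_single s, Finset.sum_eq_single i, Finset.sum_eq_single j]
  · simp
  · intro j' _ hj'; simp [hj']
  · simp
  · intro i' _ hi'; simp [hi']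
  · simp
  · intro s' _ hs'; simp [hs']
  · intro h; exact absurd (Finset.mem_range.mpr hs) h

/-- The shape of the quadratic terms. -/
def Rep2 (U : ℕ → Fin a → E →ₗ[𝕜] 𝕜) (l : ℕ) (B : E → E → 𝕜) : Prop :=
  ∃ β : ℕ → Fin a → Fin a → 𝕜, ∀ h k, B h k =
    ∑ s ∈ Finset.range l, ∑ i, ∑ j, β s i j * (U s j h * U s i k)

lemma Rep2.zero : Rep2 U l (fun _ _ => (0 : 𝕜)) := ⟨0, fun h k => by simp⟩

lemma Rep2.add {T T' : E → E → 𝕜} (h : Rep2 U l T) (h' : Rep2 U l T') :
    Rep2 U l (fun x y => T x y + T' x y) := by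
  obtain ⟨β, H⟩ := h
  obtain ⟨β', H'⟩ := h'
  refine ⟨fun s i j => β s i j + β' s i j, fun x y => ?_⟩
  beta_reduce
  rw [H, H']
  simp only [← Finset.sum_add_distrib, add_mul]

lemma Rep2.smul {T : E → E → 𝕜} (c : 𝕜) (h : Rep2 U l T) : Rep2 U l (fun x y => c * T x y) := by
  obtain ⟨β, H⟩ := h
  refine ⟨fun s i j => c * β s i j, fun x y => ?_⟩
  beta_reduce
  rw [H]
  simp only [Finset.mul_sum, mul_assoc]

lemma Rep2.sum {ι : Type} (S : Finset ι) {T : ι → E → E → 𝕜} (h : ∀ i ∈ S, Rep2 U l (T i)) :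
    Rep2 U l (fun x y => ∑ i ∈ S, T i x y) := by
  classical
  induction S using Finset.induction_on with
  | empty => simpa using Rep2.zero
  | insert i S hi ih =>
    have h1 := (h i (Finset.mem_insert_self _ _)).add
      (ih fun j hj => h j (Finset.mem_insert_of_mem hj))
    simpa only [Finset.sum_insert hi] using h1

lemma Rep2.congr {T T' : E → E → 𝕜} (h : Rep2 U l T) (e : ∀ x y, T' x y = T x y) :
    Rep2 U l T' := by
  have : T' = T := by funext x y; exact e x y
  rw [this]; exact h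

lemma Rep2.mono {l' : ℕ} (hl : l ≤ l') {T : E → E → 𝕜} (h : Rep2 U l T) : Rep2 U l' T := by
  obtain ⟨β, H⟩ := h
  refine ⟨fun s => if s < l then β s else 0, fun x y => ?_⟩
  beta_reduce
  rw [H, ← Finset.sum_subset (Finset.range_mono hl)]
  · refine Finset.sum_congr rfl fun s hs => ?_
    simp only [Finset.mem_range.mp hs, if_true]
  · intro s _ hs
    have : ¬ s < l := fun h => hs (Finset.mem_range.mpr h)
    simp [this]

lemma Rep2.gen {s : ℕ} (hs : s < l) (β : Fin a → Fin a → 𝕜) :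
    Rep2 U l (fun x y => ∑ i, ∑ j, β i j * (U s j x * U s i y)) := by
  classical
  refine ⟨fun s' => if s' = s then β else 0, fun x y => ?_⟩
  rw [Finset.sum_eq_single s]
  · simp
  · intro s' _ hs'; simp [hs']
  · intro h; exact absurd (Finset.mem_range.mpr hs) h

/-- multiplication of a quadratic term by a linear form -/
lemma Rep2.mul1 {T : E → E → 𝕜} (h : Rep2 U l T) (μ : E →ₗ[𝕜] 𝕜) :
    Rep U l (fun x y z => T x y * μ z) := by
  obtain ⟨β, H⟩ := h
  refine ⟨fun s i j => β s i j • μ, 0, 0, fun x y z => ?_⟩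
  beta_reduce
  rw [H, Finset.sum_mul]
  refine Finset.sum_congr rfl fun s _ => ?_
  rw [Finset.sum_mul]
  refine Finset.sum_congr rfl fun i _ => ?_
  rw [Finset.sum_mul]
  refine Finset.sum_congr rfl fun j _ => ?_
  simp only [LinearMap.smul_apply, smul_eq_mul, Pi.zero_apply, LinearMap.zero_apply, mul_zero,
    add_zero]
  ring

lemma Rep2.mul2 {T : E → E → 𝕜} (h : Rep2 U l T) (μ : E →ₗ[𝕜] 𝕜) :
    Rep U l (fun x y z => T x z * μ y) := by
  obtain ⟨β, H⟩ := h
  refine ⟨0, fun s i j => β s i j • μ, 0, fun x y z => ?_⟩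
  beta_reduce
  rw [H, Finset.sum_mul]
  refine Finset.sum_congr rfl fun s _ => ?_
  rw [Finset.sum_mul]
  refine Finset.sum_congr rfl fun i _ => ?_
  rw [Finset.sum_mul]
  refine Finset.sum_congr rfl fun j _ => ?_
  simp only [LinearMap.smul_apply, smul_eq_mul, Pi.zero_apply, LinearMap.zero_apply, mul_zero,
    add_zero, zero_add]
  ring

lemma Rep2.mul3 {T : E → E → 𝕜} (h : Rep2 U l T) (μ : E →ₗ[𝕜] 𝕜) :
    Rep U l (fun x y z => T y z * μ x) := by
  obtain ⟨β, H⟩ := h
  refine ⟨0, 0, fun s i j => β s i j • μ, fun x y z => ?_⟩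
  beta_reduce
  rw [H, Finset.sum_mul]
  refine Finset.sum_congr rfl fun s _ => ?_
  rw [Finset.sum_mul]
  refine Finset.sum_congr rfl fun i _ => ?_
  rw [Finset.sum_mul]
  refine Finset.sum_congr rfl fun j _ => ?_
  simp only [LinearMap.smul_apply, smul_eq_mul, Pi.zero_apply, LinearMap.zero_apply, mul_zero,
    add_zero, zero_add]
  ring

end rep

/-- The cubic terms contributed by the gates. -/
theorem net_third {D : Set (Fin m → 𝕜)} {g : ℕ → Fin b → (Fin m → 𝕜) → 𝕜}
    (hnet : IsNet 3 a b L D g) {x : Fin m → 𝕜} (hx : x ∈ D) :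
    ∃ U : ℕ → Fin a → (Fin m → 𝕜) →ₗ[𝕜] 𝕜, ∀ f ∈ Avail g L,
      Rep U L (fun h k w => D3 f x h k w) := by
  classical
  have hgd := net_contDiff hnet hx
  have hdata : ∀ s, ∃ (u : Fin a → (Fin m → 𝕜) → 𝕜) (φ : (Fin a → 𝕜) → Fin b → 𝕜), s < L →
      (∀ i, u i ∈ Avail g s) ∧ ∀ x ∈ D, ContDiffAt 𝕜 3 φ (fun i => u i x) ∧
        ∀ o, g s o x = φ (fun i => u i x) o := by
    intro s
    by_cases hs : s < L
    swap
    · exact ⟨fun _ _ => 0, fun _ _ => 0, fun h => absurd h hs⟩
    obtain ⟨u, φ, hu, hφ⟩ := hnet.2 s hs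
    exact ⟨u, φ, fun _ => ⟨hu, hφ⟩⟩
  choose u φ hu using hdata
  let U : ℕ → Fin a → (Fin m → 𝕜) →ₗ[𝕜] 𝕜 := fun s i => (fderiv 𝕜 (u s i) x).toLinearMap
  have hUa : ∀ s i h, fderiv 𝕜 (u s i) x h = U s i h := fun _ _ _ => rfl
  refine ⟨U, ?_⟩
  have hcu : ∀ s < L, ∀ i, ContDiffAt 𝕜 3 (u s i) x := fun s hs i =>
    avail_contDiff (fun s' hs' o' => hgd s' (hs'.trans hs) o') _ ((hu s hs).1 i)
  have hcφ : ∀ s < L, ∀ o, ContDiffAt 𝕜 3 (fun y => φ s y o) (fun i => u s i x) := fun s hs o =>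
    (contDiffAt_pi.mp ((hu s hs).2 x hx).1) o
  have hgeq : ∀ s < L, ∀ o, g s o =ᶠ[𝓝 x] fun y => φ s (fun i => u s i y) o := by
    intro s hs o
    filter_upwards [hnet.1.mem_nhds hx] with y hy
    exact ((hu s hs).2 y hy).2 o
  -- both shapes for the gates
  have key : ∀ l ≤ L, ∀ f ∈ Avail g l, Rep2 U l (fun h k => H2 f x h k) ∧
      Rep U l (fun h k w => D3 f x h k w) := by
    intro l
    induction l using Nat.strong_induction_on with
    | _ l ih =>
      intro hl f hf
      have hcf : ∀ f ∈ Avail g l, ContDiffAt 𝕜 3 f x :=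
        avail_contDiff (r := 3) fun s hs o => hgd s (hs.trans_le hl) o
      refine avail_ind (P := fun f => Rep2 U l (fun h k => H2 f x h k) ∧
        Rep U l (fun h k w => D3 f x h k w)) ?_ ?_ ?_ ?_ f hf
      · intro ℓ c
        refine ⟨Rep2.zero.congr fun h k => ?_, Rep.zero.congr fun h k w => D3_affine ℓ c x h k w⟩
        rw [H2_affine]
        rfl
      · intro s hs o
        have hsL : s < L := hs.trans_le hl
        have ihs := fun i => ih s hs hsL.le (u s i) ((hu s hsL).1 i)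
        constructor
        · have h1 : ∀ h k, H2 (g s o) x h k = ∑ i, p1 (fun y => φ s y o) i (fun i => u s i x) *
              H2 (u s i) x h k + ∑ i, ∑ j, p1 (p1 (fun y => φ s y o) i) j (fun i => u s i x) *
                (U s j h * U s i k) := by
            intro h k
            rw [H2_congr (hgeq s hsL o)]
            exact H2_comp_explicit (fun i => le23 (hcu s hsL i)) ((hcφ s hsL o).of_le
              (by norm_num)) h k
          refine Rep2.congr (Rep2.add (Rep2.sum Finset.univ fun i _ =>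
            Rep2.smul _ ((ihs i).1.mono hs.le)) (Rep2.gen hs
            fun i j => p1 (p1 (fun y => φ s y o) i) j (fun i => u s i x))) h1
        · have h1 : ∀ h k w, D3 (g s o) x h k w =
              ∑ i, p1 (fun y => φ s y o) i (fun i => u s i x) * D3 (u s i) x h k w +
              ∑ i, ∑ j, p1 (p1 (fun y => φ s y o) i) j (fun i => u s i x) *
                (H2 (u s i) x h k * U s j w + H2 (u s j) x h w * U s i k +
                  H2 (u s i) x k w * U s j h) +
              ∑ i, ∑ j, ∑ r, p1 (p1 (p1 (fun y => φ s y o) i) j) r (fun i => u s i x) *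
                (U s j h * U s i k * U s r w) := by
            intro h k w
            rw [D3_congr (hgeq s hsL o)]
            have h2 := D3_comp (hcu s hsL) (hcφ s hsL o) h k w
            rw [h2]
            congr 1
            · congr 1
              refine Finset.sum_congr rfl fun i _ => Finset.sum_congr rfl fun j _ => ?_
              rw [H2_symm (le23 (hcu s hsL j)) w h, H2_symm (le23 (hcu s hsL i)) w k, hUa, hUa,
                hUa]
              ring
            · refine Finset.sum_congr rfl fun i _ => Finset.sum_congr rfl fun j _ =>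
                Finset.sum_congr rfl fun r _ => ?_
              rw [hUa, hUa, hUa]
              ring
          refine Rep.congr (Rep.add (Rep.add (Rep.sum Finset.univ fun i _ =>
            Rep.smul _ ((ihs i).2.mono hs.le)) (Rep.sum Finset.univ fun i _ =>
            Rep.sum Finset.univ fun j _ => Rep.smul _ (Rep.add (Rep.add
              ((ihs i).1.mul1 (U s j)) ((ihs j).1.mul2 (U s i)))
              ((ihs i).1.mul3 (U s j)) |>.mono hs.le))) (Rep.sum Finset.univ fun i _ =>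
            Rep.sum Finset.univ fun j _ => Rep.sum Finset.univ fun r _ =>
              Rep.smul _ (Rep.gen1 hs i j (U s r)))) h1
      · intro f f' hf hf' h h'
        refine ⟨(h.1.add h'.1).congr fun x' y' => ?_, (h.2.add h'.2).congr fun x' y' z' =>
          D3_add (hcf f hf) (hcf f' hf') _ _ _⟩
        rw [H2_add (le23 (hcf f hf)) (le23 (hcf f' hf'))]
        rfl
      · intro c f hf h
        refine ⟨(h.1.smul c).congr fun x' y' => ?_, (h.2.smul c).congr fun x' y' z' =>
          D3_smul c (hcf f hf) _ _ _⟩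
        rw [H2_smul c (le23 (hcf f hf))]
        rfl
  exact fun f hf => (key L le_rfl f hf).2

end Pool.Agent.X214.OM
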